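import Mathlib
import Pool.Agent.Lib.TwoLogs.Explicit

/-!
# Elementary facts about `a ^ u = b ^ v + 2`
-/

set_option autoImplicit false

namespace Pool.Agent.Lib.MP_545343_nt

open Pool.Agent.Lib.TwoLogs

lemma pow_succ_lower {B g : ℕ} (hB : 1 ≤ B) (hg : 2 ≤ g) : B ^ g + 3 ≤ (B + 1) ^ g := by
  obtain ⟨k, rfl⟩ := Nat.exists_eq_add_of_le hg
  have h1 : B ^ k ≤ (B + 1) ^ k := Nat.pow_le_pow_left (by omega) k
  have h2 : 1 ≤ B ^ k := Nat.one_le_pow _ _ hB
  calc B ^ (2 + k) + 3 ≤ B ^ 2 * B ^ k + 3 * (B ^ k) := by rw [pow_add]; omega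
    _ = (B ^ 2 + 3) * B ^ k := by ring
    _ ≤ (B ^ 2 + 2 * B + 1) * B ^ k := Nat.mul_le_mul_right _ (by omega)
    _ ≤ (B ^ 2 + 2 * B + 1) * (B + 1) ^ k := Nat.mul_le_mul_left _ h1
    _ = (B + 1) ^ (2 + k) := by rw [pow_add]; ring

lemma coprime_exponents {a b u v : ℕ} (hb : 1 ≤ b) (hu : 1 ≤ u) (h : a ^ u = b ^ v + 2) :
    Nat.Coprime u v := by
  by_contra hne
  set g := Nat.gcd u v with hg
  have hg0 : 0 < g := Nat.gcd_pos_of_pos_left _ hu
  have hg2 : 2 ≤ g := by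
    have : g ≠ 1 := hne
    omega
  obtain ⟨u', hu'⟩ := Nat.gcd_dvd_left u v
  obtain ⟨v', hv'⟩ := Nat.gcd_dvd_right u v
  rw [← hg] at hu' hv'
  rw [hu', hv', mul_comm g u', mul_comm g v', pow_mul, pow_mul] at h
  set A := a ^ u'
  set B := b ^ v'
  have hB : 1 ≤ B := Nat.one_le_pow _ _ hb
  have hAB : B < A := by
    by_contra hle
    push Not at hle
    have := Nat.pow_le_pow_left hle g
    omega
  have h1 := pow_succ_lower hB hg2
  have h2 : (B + 1) ^ g ≤ A ^ g := Nat.pow_le_pow_left hAB g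
  omega

lemma fermat_dvd {p a b u v : ℕ} (hp : p.Prime) (hp2 : 2 < p) (h : a ^ u = b ^ v + 2)
    (hcop : Nat.Coprime u v) (hdiv : p - 1 ∣ u) (hpa : ¬ p ∣ a) : p ∣ b + 1 := by
  have : Fact p.Prime := ⟨hp⟩
  have hcop2 : Nat.Coprime (p - 1) v := Nat.Coprime.coprime_dvd_left hdiv hcop
  have hodd : Odd v := by
    rcases Nat.even_or_odd v with hv | hv
    · exfalso
      have h2 : 2 ∣ p - 1 := by
        have := hp.eq_two_or_odd
        omega
      have h3 : 2 ∣ v := hv.two_dvd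
      have := Nat.dvd_gcd h2 h3
      rw [hcop2] at this
      omega
    · exact hv
  have ha0 : (a : ZMod p) ≠ 0 := by
    intro h0
    exact hpa ((ZMod.natCast_eq_zero_iff _ _).1 h0)
  have h1 : (a : ZMod p) ^ u = 1 := by
    obtain ⟨k, hk⟩ := hdiv
    rw [hk, pow_mul, ZMod.pow_card_sub_one_eq_one ha0, one_pow]
  have h2 : (b : ZMod p) ^ v = -1 := by
    have h3 : ((a ^ u : ℕ) : ZMod p) = ((b ^ v + 2 : ℕ) : ZMod p) := by rw [h]
    push_cast at h3
    rw [h1] at h3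
    linear_combination -h3
  have h3 : (-(b : ZMod p)) ^ v = 1 := by
    rw [hodd.neg_pow, h2, neg_neg]
  have hb0 : -(b : ZMod p) ≠ 0 := by
    intro h0
    rw [h0, zero_pow (by
      intro hv0
      rw [hv0] at hodd
      exact absurd hodd (by decide))] at h3
    exact zero_ne_one h3
  have h4 : (-(b : ZMod p)) ^ (p - 1) = 1 := ZMod.pow_card_sub_one_eq_one hb0
  have h5 : (-(b : ZMod p)) = 1 := by
    have h6 : orderOf (-(b : ZMod p)) ∣ v := orderOf_dvd_of_pow_eq_one h3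
    have h7 : orderOf (-(b : ZMod p)) ∣ (p - 1) := orderOf_dvd_of_pow_eq_one h4
    have h8 : orderOf (-(b : ZMod p)) ∣ 1 := by
      have := Nat.dvd_gcd h7 h6
      rwa [hcop2] at this
    exact orderOf_eq_one_iff.1 (Nat.dvd_one.1 h8)
  have h6 : ((b + 1 : ℕ) : ZMod p) = 0 := by
    push_cast
    linear_combination -h5
  exact (ZMod.natCast_eq_zero_iff _ _).1 h6

/-- if `2` is a square modulo the odd number `n` then `n ≡ ±1 mod 8`. -/
lemma mod_eight_of_two_sq {n Z M : ℕ} (hn : Odd n) (hdiv : n ∣ M) (h : Z ^ 2 = M + 2) :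
    n % 8 = 1 ∨ n % 8 = 7 := by
  have hsq : IsSquare ((2 : ℤ) : ZMod n) := by
    refine ⟨(Z : ZMod n), ?_⟩
    have h1 : ((Z ^ 2 : ℕ) : ZMod n) = ((M + 2 : ℕ) : ZMod n) := by rw [h]
    push_cast at h1
    rw [(ZMod.natCast_eq_zero_iff _ _).2 hdiv] at h1
    push_cast
    linear_combination -h1
  have hJ : jacobiSym 2 n ≠ -1 := fun hneg => ZMod.nonsquare_of_jacobiSym_eq_neg_one hneg hsq
  rw [jacobiSym.at_two hn, ZMod.χ₈_nat_eq_if_mod_eight] at hJ
  have h2 : n % 2 ≠ 0 := by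
    have := Nat.odd_iff.1 hn
    omega
  rw [if_neg h2] at hJ
  by_contra hcon
  rw [if_neg hcon] at hJ
  exact hJ rfl

/-- upper bound of the linear form -/
lemma abs_linear_form_le {a b u v : ℕ} (ha : 1 ≤ a) (hb : 1 ≤ b) (h : a ^ u = b ^ v + 2) :
    |u * Real.log a - v * Real.log b| ≤ 2 * Real.exp (-(v * Real.log b)) := by
  have ha0 : (0 : ℝ) < a := by exact_mod_cast ha
  have hb0 : (0 : ℝ) < b := by exact_mod_cast hb
  have hbv : (0 : ℝ) < (b : ℝ) ^ v := by positivity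
  have h1 : (a : ℝ) ^ u = (b : ℝ) ^ v + 2 := by exact_mod_cast h
  have h2 : u * Real.log a - v * Real.log b = Real.log (1 + 2 / (b : ℝ) ^ v) := by
    rw [← Real.log_pow, ← Real.log_pow, ← Real.log_div (by positivity) (by positivity), h1]
    congr 1
    field_simp
  have h3 : Real.exp (-(v * Real.log b)) = 1 / (b : ℝ) ^ v := by
    rw [Real.exp_neg, ← Real.log_pow, Real.exp_log hbv, one_div]
  rw [h2, h3]
  have h4 : 0 ≤ Real.log (1 + 2 / (b : ℝ) ^ v) := Real.log_nonneg (by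
    have : 0 < 2 / (b : ℝ) ^ v := by positivity
    linarith)
  rw [abs_of_nonneg h4]
  have h5 := Real.log_le_sub_one_of_pos (show 0 < 1 + 2 / (b : ℝ) ^ v by positivity)
  calc Real.log (1 + 2 / (b : ℝ) ^ v) ≤ 1 + 2 / (b : ℝ) ^ v - 1 := h5
    _ = 2 * (1 / (b : ℝ) ^ v) := by ring

/-- growth lemma: `97 (x+1)^9 ≤ e^(x-2)` for `x ≥ 40`. -/
lemma exp_growth {n : ℕ} (hn : 40 ≤ n) : (90 : ℝ) * ((n : ℝ) + 1) ^ 9 ≤ Real.exp (n - 2) := by
  induction n, hn using Nat.le_induction with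
  | base =>
    have h1 : Real.exp ((40 : ℕ) - 2 : ℝ) = (Real.exp 1) ^ 38 := by
      rw [← Real.exp_nat_mul]; norm_num
    rw [h1]
    have h2 : (2.7182818283 : ℝ) ^ 38 ≤ (Real.exp 1) ^ 38 :=
      pow_le_pow_left₀ (by norm_num) Real.exp_one_gt_d9.le _
    refine le_trans ?_ h2
    norm_num
  | succ n hn ih =>
    have hn' : (40 : ℝ) ≤ n := by exact_mod_cast hn
    push_cast
    have h1 : Real.exp ((n : ℝ) + 1 - 2) = Real.exp (n - 2) * Real.exp 1 := by
      rw [← Real.exp_add]; ring_nf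
    rw [h1]
    have h2 : ((n : ℝ) + 1 + 1) ^ 9 ≤ (((n : ℝ) + 1) * (42 / 41)) ^ 9 := by
      apply pow_le_pow_left₀ (by positivity)
      linarith
    have h3 : (((n : ℝ) + 1) * (42 / 41)) ^ 9 ≤ ((n : ℝ) + 1) ^ 9 * 2 := by
      rw [mul_pow]
      apply mul_le_mul_of_nonneg_left _ (by positivity)
      norm_num
    have h4 : (2 : ℝ) ≤ Real.exp 1 := by linarith [Real.exp_one_gt_d9]
    calc (90 : ℝ) * ((n : ℝ) + 1 + 1) ^ 9 ≤ (90 * ((n : ℝ) + 1) ^ 9) * 2 := by linarith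
      _ ≤ Real.exp (n - 2) * Real.exp 1 := mul_le_mul ih h4 (by norm_num) (Real.exp_pos _).le

/-- Consequence of the two-logarithms estimate for the equation `a ^ u = b ^ v + 2`. -/
theorem pillai_two {a b u v : ℕ} (ha : 3 ≤ a) (hb : 21 ≤ b) (hu : 1 ≤ u) (hv : 1 ≤ v)
    (h : a ^ u = b ^ v + 2) (h1 : 720000 * Real.log a ≤ v)
    (h2 : 160 * (Real.log a * Real.log b) ≤ (v / (450 * Real.log a)) ^ 3) : False := by
  set α := Real.log a with hα
  set β := Real.log b with hβ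
  have hα1 : 1 ≤ α := by
    rw [hα, Real.le_log_iff_exp_le (by positivity)]
    have : (3 : ℝ) ≤ a := by exact_mod_cast ha
    linarith [Real.exp_one_lt_d9]
  have hβ3 : 3 ≤ β := by
    rw [hβ, Real.le_log_iff_exp_le (by positivity)]
    have h1 : (21 : ℝ) ≤ b := by exact_mod_cast hb
    obtain ⟨-, he2⟩ := exp_two_bounds
    have h2 : Real.exp 3 = Real.exp 2 * Real.exp 1 := by rw [← Real.exp_add]; norm_num
    have h3 := Real.exp_one_lt_d9
    have h4 := Real.exp_pos 1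
    rw [h2]
    calc Real.exp 2 * Real.exp 1 ≤ 7.3891 * 2.72 := mul_le_mul he2.le (by linarith) h4.le (by norm_num)
      _ ≤ 21 := by norm_num
      _ ≤ b := h1
  have hα0 : 0 < α := by linarith
  have hv0 : (0 : ℝ) < v := by exact_mod_cast hv
  set Y : ℝ := v / (450 * α) with hY
  have hY1 : 1600 ≤ Y := by
    rw [hY, le_div_iff₀ (by positivity)]
    linarith
  have hvY : (v : ℝ) = 450 * α * Y := by rw [hY]; field_simp
  set L : ℕ := ⌊Real.sqrt Y⌋₊ with hL
  have hsq0 : 0 ≤ Real.sqrt Y := Real.sqrt_nonneg _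
  have hsqY : Real.sqrt Y ^ 2 = Y := Real.sq_sqrt (by linarith)
  have hL1 : (L : ℝ) ≤ Real.sqrt Y := Nat.floor_le hsq0
  have hL2 : Real.sqrt Y < L + 1 := Nat.lt_floor_add_one _
  have hL40 : 40 ≤ L := by
    apply Nat.le_floor
    have : Real.sqrt 1600 ≤ Real.sqrt Y := Real.sqrt_le_sqrt hY1
    have h16 : Real.sqrt 1600 = 40 := by
      rw [show (1600 : ℝ) = 40 ^ 2 by norm_num]
      exact Real.sqrt_sq (by norm_num)
    push_cast
    linarith
  have hL0 : (40 : ℝ) ≤ L := by exact_mod_cast hL40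
  have hL3 : (L : ℝ) ^ 2 ≤ Y := by
    rw [← hsqY]; exact pow_le_pow_left₀ (by linarith) hL1 2
  have hL4 : Y ≤ ((L : ℝ) + 1) ^ 2 := by
    rw [← hsqY]; exact pow_le_pow_left₀ hsq0 hL2.le 2
  have hcond1 : 450 * α * (L : ℝ) ^ 2 ≤ v := by
    rw [hvY]
    exact mul_le_mul_of_nonneg_left hL3 (by positivity)
  have hcond2 : v * L * (30 * β + 3) ≤ Real.exp (L - 2) := by
    refine le_trans ?_ (exp_growth hL40)
    have h31 : 30 * β + 3 ≤ 31 * β := by linarith
    have e1 : (v : ℝ) * L * (30 * β + 3) ≤ (450 * α * ((L : ℝ) + 1) ^ 2) * ((L : ℝ) + 1) * (31 * β) := by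
      apply mul_le_mul _ h31 (by positivity) (by positivity)
      apply mul_le_mul _ (by linarith) (by positivity) (by positivity)
      rw [hvY]
      exact mul_le_mul_of_nonneg_left hL4 (by positivity)
    have e2 : (450 * α * ((L : ℝ) + 1) ^ 2) * ((L : ℝ) + 1) * (31 * β) =
        13950 * (α * β) * ((L : ℝ) + 1) ^ 3 := by ring
    have e3 : 160 * (α * β) ≤ ((L : ℝ) + 1) ^ 6 := by
      refine h2.trans ?_
      calc Y ^ 3 ≤ (((L : ℝ) + 1) ^ 2) ^ 3 := pow_le_pow_left₀ (by linarith) hL4 3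
        _ = ((L : ℝ) + 1) ^ 6 := by ring
    calc (v : ℝ) * L * (30 * β + 3) ≤ 13950 * (α * β) * ((L : ℝ) + 1) ^ 3 := by rw [← e2]; exact e1
      _ ≤ (90 * ((L : ℝ) + 1) ^ 6) * ((L : ℝ) + 1) ^ 3 := by
          apply mul_le_mul_of_nonneg_right _ (by positivity)
          have e4 : 0 ≤ α * β := by positivity
          linarith
      _ = 90 * ((L : ℝ) + 1) ^ 9 := by ring
  have hcop := coprime_exponents (by omega : 1 ≤ b) hu h
  have hlow := two_logs_explicit a b u v L ha hb hu hv hcop (by omega) hcond1 hcond2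
  have hup := abs_linear_form_le (by omega : 1 ≤ a) (by omega : 1 ≤ b) h
  linarith

end Pool.Agent.Lib.MP_545343_nt
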