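import Mathlib

/-!
# Equation (E1)
-/

set_option autoImplicit false

namespace Pool.Agent.Lib.MP_545343_nt

/-- `(1+X)^q ≡ 1 + q X mod X^2`. -/
lemma one_add_pow_mod_sq (X : ℤ) (q : ℕ) : ∃ k : ℤ, (1 + X) ^ q = 1 + q * X + k * X ^ 2 := by
  induction q with
  | zero => exact ⟨0, by simp⟩
  | succ q ih =>
    obtain ⟨k, hk⟩ := ih
    refine ⟨q + k + k * X, ?_⟩
    rw [pow_succ, hk]
    push_cast
    ring

/-- if `d^x + 1 ∣ d^y + 1` then `y` is an odd multiple of `x`. -/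
lemma exists_odd_mul {d x y : ℕ} (hd : 2 ≤ d) (hx : 1 ≤ x) (h : d ^ x + 1 ∣ d ^ y + 1) :
    ∃ q, Odd q ∧ y = x * q := by
  have hxy := Nat.div_add_mod y x
  set q := y / x
  set r := y % x
  have hr : r < x := Nat.mod_lt _ (by omega)
  have hDpos : 2 ≤ d ^ x := by
    calc 2 ≤ d := hd
      _ = d ^ 1 := (pow_one d).symm
      _ ≤ d ^ x := Nat.pow_le_pow_right (by omega) hx
  have hrlt : d ^ r < d ^ x := Nat.pow_lt_pow_right (by omega) hr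
  have hr1 : 1 ≤ d ^ r := Nat.one_le_pow _ _ (by omega)
  have hmod : (((d ^ x + 1 : ℕ) : ℤ)) ∣ (-1) ^ q * (d : ℤ) ^ r + 1 := by
    have h1 : (((d ^ x + 1 : ℕ) : ℤ)) ∣ ((d : ℤ) ^ x) ^ q - (-1) ^ q := by
      have h2 : ((d : ℤ) ^ x - (-1)) ∣ ((d : ℤ) ^ x) ^ q - (-1) ^ q := sub_dvd_pow_sub_pow _ _ q
      have h3 : (((d ^ x + 1 : ℕ) : ℤ)) = (d : ℤ) ^ x - (-1) := by push_cast; ring
      rw [h3]; exact h2
    have h4 : (((d ^ x + 1 : ℕ) : ℤ)) ∣ ((d ^ y + 1 : ℕ) : ℤ) := by exact_mod_cast h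
    have h5 : ((d ^ y + 1 : ℕ) : ℤ) = ((d : ℤ) ^ x) ^ q * (d : ℤ) ^ r + 1 := by
      rw [← hxy]; push_cast; rw [pow_add, pow_mul]
    rw [h5] at h4
    have h6 := dvd_sub h4 (Dvd.dvd.mul_right h1 ((d : ℤ) ^ r))
    have h7 : ((d : ℤ) ^ x) ^ q * (d : ℤ) ^ r + 1 - (((d : ℤ) ^ x) ^ q - (-1) ^ q) * (d : ℤ) ^ r =
        (-1) ^ q * (d : ℤ) ^ r + 1 := by ring
    rwa [h7] at h6
  rcases Nat.even_or_odd q with hq | hq
  · exfalso
    rw [hq.neg_one_pow, one_mul] at hmod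
    have h1 : d ^ x + 1 ∣ d ^ r + 1 := by exact_mod_cast hmod
    have := Nat.le_of_dvd (by omega) h1
    omega
  · refine ⟨q, hq, ?_⟩
    rw [hq.neg_one_pow] at hmod
    have h1 : (((d ^ x + 1 : ℕ) : ℤ)) ∣ ((d ^ r - 1 : ℕ) : ℤ) := by
      have h2 : ((d ^ r - 1 : ℕ) : ℤ) = -(-1 * (d : ℤ) ^ r + 1) := by
        rw [Nat.cast_sub hr1]; push_cast; ring
      rw [h2]
      exact (dvd_neg).2 hmod
    have h3 : d ^ x + 1 ∣ d ^ r - 1 := by exact_mod_cast h1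
    have h4 : d ^ r - 1 = 0 := Nat.eq_zero_of_dvd_of_lt h3 (by omega)
    have h5 : d ^ r = 1 := by omega
    have h6 : r = 0 := by
      by_contra hr0
      have : d ^ 1 ≤ d ^ r := Nat.pow_le_pow_right (by omega) (by omega)
      rw [pow_one] at this
      omega
    omega

/-- (E1) has no solutions. -/
theorem E1_no_solution {d x y s t : ℕ} (hd : 2 ≤ d) (hx : 2 ≤ x) (hy : 2 ≤ y) (hs : 2 ≤ s)
    (ht : 2 ≤ t) (h : ((d ^ x + 1) ^ s + 1) ^ t = d ^ y + 2) : False := by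
  rcases Nat.even_or_odd d with hde | hdo
  · -- d even
    have h1 : 4 ∣ d ^ y := by
      have h2 : 2 ^ 2 ∣ d ^ 2 := pow_dvd_pow_of_dvd hde.two_dvd 2
      exact (by simpa using h2 : 4 ∣ d ^ 2).trans (pow_dvd_pow d hy)
    have h2 : 4 ∣ ((d ^ x + 1) ^ s + 1) ^ t := by
      have h3 : 2 ∣ (d ^ x + 1) ^ s + 1 := by
        have h4 : Odd ((d ^ x + 1) ^ s) := by
          apply Odd.pow
          apply Even.add_one
          exact (Nat.even_pow.2 ⟨hde, by omega⟩)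
        exact (h4.add_one).two_dvd
      have h5 : 2 ^ 2 ∣ ((d ^ x + 1) ^ s + 1) ^ 2 := pow_dvd_pow_of_dvd h3 2
      exact (by simpa using h5 : 4 ∣ ((d ^ x + 1) ^ s + 1) ^ 2).trans (pow_dvd_pow _ ht)
    rw [h] at h2
    omega
  · -- d odd
    have h1 : (d ^ x + 1) ^ s ∣ d ^ y + 1 := by
      have h2 : (d ^ x + 1) ^ s + 1 - 1 ∣ ((d ^ x + 1) ^ s + 1) ^ t - 1 ^ t := Nat.sub_dvd_pow_sub_pow _ _ t
      rw [h, one_pow] at h2
      simpa using h2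
    have h2 : (d ^ x + 1) ^ 2 ∣ d ^ y + 1 := (pow_dvd_pow _ hs).trans h1
    have h3 : d ^ x + 1 ∣ d ^ y + 1 := (dvd_pow_self _ (by norm_num)).trans h2
    obtain ⟨q, hq, rfl⟩ := exists_odd_mul hd (by omega) h3
    -- (D+1)^2 ∣ D^q + 1
    have h4 : (((d ^ x + 1 : ℕ) : ℤ)) ^ 2 ∣ ((d : ℤ) ^ x) ^ q + 1 := by
      have : (((d ^ x + 1 : ℕ) : ℤ)) ^ 2 ∣ ((d ^ (x * q) + 1 : ℕ) : ℤ) := by exact_mod_cast h2
      rw [pow_mul] at this
      push_cast at this ⊢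
      exact this
    set N : ℤ := ((d ^ x + 1 : ℕ) : ℤ) with hN
    have hD : (d : ℤ) ^ x = N - 1 := by rw [hN]; push_cast; ring
    obtain ⟨k, hk⟩ := one_add_pow_mod_sq (-N) q
    have h5 : ((d : ℤ) ^ x) ^ q = -(1 + q * (-N) + k * (-N) ^ 2) := by
      rw [← hk, hD, ← hq.neg_pow]
      congr 1
      ring
    rw [h5] at h4
    have h6 : N ^ 2 ∣ q * N := by
      have h7 : (q : ℤ) * N = (-(1 + q * (-N) + k * (-N) ^ 2) + 1) + k * N ^ 2 := by ring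
      rw [h7]
      exact dvd_add h4 (Dvd.intro_left _ rfl)
    have hN0 : N ≠ 0 := by rw [hN]; positivity
    have h8 : N ∣ q := by
      rw [sq] at h6
      exact (mul_dvd_mul_iff_right hN0).1 h6
    have h9 : (2 : ℤ) ∣ N := by
      rw [hN]
      have : 2 ∣ d ^ x + 1 := (hdo.pow.add_one).two_dvd
      exact_mod_cast this
    have h10 : (2 : ℤ) ∣ q := h9.trans h8
    have h11 : 2 ∣ q := by exact_mod_cast h10
    rw [← even_iff_two_dvd] at h11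
    exact (Nat.not_even_iff_odd.2 hq) h11

end Pool.Agent.Lib.MP_545343_nt
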