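import Mathlib
import Pool.Agent.Lib.MP_545343_nt.Basic
import Pool.Agent.Lib.MP_545343_nt.E1

/-!
# Equation (E2)
-/

set_option autoImplicit false

namespace Pool.Agent.Lib.MP_545343_nt

/-- residues mod 153 of the solutions of `3 X^2 = C^2 + 2`. -/
def orb : List (ℕ × ℕ) :=
  (List.range 18).map (fun n => Nat.iterate (fun p : ℕ × ℕ => ((2 * p.1 + 3 * p.2) % 153, (p.1 + 2 * p.2) % 153)) n (1, 1))

lemma orb_closed : ∀ p ∈ orb, ((2 * p.1 + 3 * p.2) % 153, (p.1 + 2 * p.2) % 153) ∈ orb := by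
  decide +kernel

lemma orb_prop : ∀ p ∈ orb, p.2 % 9 = 0 → p.2 % 17 = 0 := by
  decide +kernel

lemma pell_orb (X : ℕ) : ∀ C : ℕ, 3 * X ^ 2 = C ^ 2 + 2 → (C % 153, X % 153) ∈ orb := by
  induction X using Nat.strong_induction_on with
  | _ X ih =>
    intro C h
    rcases Nat.lt_or_ge X 2 with hX | hX
    · interval_cases X
      · omega
      · have hC : C = 1 := by nlinarith
        subst hC
        decide
    · have h1 : X < C := by nlinarith
      have h2 : C < 2 * X := by nlinarith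
      have h3 : 3 * X ≤ 2 * C := by nlinarith
      obtain ⟨C', hC'⟩ := Nat.exists_eq_add_of_le h3
      obtain ⟨X', hX'⟩ := Nat.exists_eq_add_of_le h2.le
      have h4 : C = 2 * C' + 3 * X' := by omega
      have h5 : X = C' + 2 * X' := by omega
      have h6 : 3 * X' ^ 2 = C' ^ 2 + 2 := by
        rw [h4, h5] at h
        nlinarith
      have h7 := ih X' (by omega) C' h6
      have h8 := orb_closed _ h7
      have h9 : C % 153 = (2 * (C' % 153) + 3 * (X' % 153)) % 153 := by omega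
      have h10 : X % 153 = ((C' % 153) + 2 * (X' % 153)) % 153 := by omega
      rw [h9, h10]
      exact h8

/-- `3^y = C^2 + 2` implies `y ≤ 3`. -/
lemma three_pow_eq_sq_add_two {y C : ℕ} (h : 3 ^ y = C ^ 2 + 2) : y ≤ 3 := by
  by_contra hy
  push Not at hy
  -- y odd
  have hyodd : y % 2 = 1 := by
    by_contra hne
    have hev : Even y := Nat.even_iff.2 (by omega)
    obtain ⟨w, hw⟩ := hev
    have h1 : 3 ^ y % 4 = 1 := by
      rw [hw, ← two_mul, pow_mul, Nat.pow_mod]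
      simp
    have h2 : C ^ 2 % 4 = 0 ∨ C ^ 2 % 4 = 1 := by
      have : C % 4 < 4 := Nat.mod_lt _ (by norm_num)
      rw [Nat.pow_mod]
      interval_cases C % 4 <;> simp
    omega
  obtain ⟨w, hw⟩ : ∃ w, y = 2 * w + 1 := ⟨y / 2, by omega⟩
  have h1 : 3 * (3 ^ w) ^ 2 = C ^ 2 + 2 := by
    rw [← h, hw]; ring
  have h2 := pell_orb _ _ h1
  have h3 : 9 ∣ 3 ^ w := by
    have : (3 : ℕ) ^ 2 ∣ 3 ^ w := pow_dvd_pow 3 (by omega)
    simpa using this
  have h4 := orb_prop _ h2 (by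
    change 3 ^ w % 153 % 9 = 0
    omega)
  have h5 : 17 ∣ 3 ^ w := by
    change 3 ^ w % 153 % 17 = 0 at h4
    omega
  have h6 : 17 ∣ 3 := Nat.Prime.dvd_of_dvd_pow (by norm_num) h5
  omega

/-- valuation consequence -/
lemma pow_dvd_two_mul {X s q : ℕ} (hX : 2 ≤ X) (hXe : 2 ∣ X) (h8 : ¬ 8 ∣ X + 2)
    (hq : 1 ≤ q) (hqe : Even q) (h : X ^ s ∣ (X + 1) ^ q - 1) :
    X ^ (s - 1) ∣ 2 * q := by
  rcases Nat.eq_zero_or_pos s with hs0 | hs
  · subst hs0; simp
  have hX0 : X ≠ 0 := by omega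
  have hq0 : q ≠ 0 := by omega
  have hpos : 0 < (X + 1) ^ q - 1 := by
    have : (X + 1) ^ 1 ≤ (X + 1) ^ q := Nat.pow_le_pow_right (by omega) hq
    rw [pow_one] at this
    omega
  rw [← Nat.factorization_le_iff_dvd (pow_ne_zero _ hX0) (by omega)]
  intro p
  by_cases hp : p.Prime
  swap
  · rw [Nat.factorization_eq_zero_of_not_prime _ hp]; exact Nat.zero_le _
  have : Fact p.Prime := ⟨hp⟩
  rw [Nat.factorization_def _ hp, Nat.factorization_def _ hp, padicValNat.pow]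
  by_cases hpX : p ∣ X
  swap
  · rw [padicValNat.eq_zero_of_not_dvd hpX]; simp
  have hvs : s * padicValNat p X ≤ padicValNat p ((X + 1) ^ q - 1) := by
    have h1 : p ^ (s * padicValNat p X) ∣ (X + 1) ^ q - 1 := by
      refine dvd_trans ?_ h
      rw [mul_comm, pow_mul]
      exact pow_dvd_pow_of_dvd pow_padicValNat_dvd s
    exact (padicValNat_dvd_iff_le hpos.ne').1 h1
  have hs1 : s * padicValNat p X = (s - 1) * padicValNat p X + padicValNat p X := by
    obtain ⟨s', rfl⟩ : ∃ s', s = s' + 1 := ⟨s - 1, by omega⟩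
    simp [add_mul]
  by_cases hp2 : p = 2
  · subst hp2
    have hlte := padicValNat.pow_two_sub_pow (x := X + 1) (y := 1) (by omega)
      (by simpa using hXe) (by omega) hq0 hqe
    rw [one_pow] at hlte
    have h1 : padicValNat 2 (X + 1 + 1) ≤ 2 := by
      by_contra hcon
      push Not at hcon
      have h2 : 2 ^ 3 ∣ X + 1 + 1 := (padicValNat_dvd_iff_le (by omega)).2 hcon
      exact h8 (by simpa using h2)
    have h2 : padicValNat 2 (2 * q) = 1 + padicValNat 2 q := by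
      rw [padicValNat.mul (by norm_num) hq0, padicValNat_self]
    rw [h2]
    simp only [Nat.add_sub_cancel] at hlte
    omega
  · have hodd : Odd p := hp.odd_of_ne_two hp2
    have hlte := padicValNat.pow_sub_pow (p := p) hodd (x := X + 1) (y := 1) (by omega)
      (by simpa using hpX) (by
        intro hd
        have h1 : p ∣ 1 := (Nat.dvd_add_right hpX).1 hd
        exact hp.one_lt.ne' (Nat.dvd_one.1 h1)) hq0
    rw [one_pow] at hlte
    simp only [Nat.add_sub_cancel] at hlte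
    have h2 : padicValNat p (2 * q) = padicValNat p q := by
      rw [padicValNat.mul (by norm_num) hq0, padicValNat.eq_zero_of_not_dvd (n := 2), zero_add]
      intro hd
      exact hp2 ((Nat.prime_dvd_prime_iff_eq hp Nat.prime_two).1 hd)
    rw [h2]
    omega

/-- Structural facts for the equation `D^q = (X^s-1)^t + 2`, `D = X+1`. -/
structure E2Data (X s q t : ℕ) : Prop where
  hX : 8 ≤ X
  hXe : 2 ∣ X
  hs : 3 ≤ s
  ht : 3 ≤ t
  hto : Odd t
  hq : 2 ≤ q
  heq : (X + 1) ^ q = (X ^ s - 1) ^ t + 2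

namespace E2Data

variable {X s q t : ℕ}

lemma one_lt_pow (h : E2Data X s q t) : 512 ≤ X ^ s := by
  calc 512 = 8 ^ 3 := by norm_num
    _ ≤ X ^ 3 := Nat.pow_le_pow_left h.hX 3
    _ ≤ X ^ s := Nat.pow_le_pow_right (by have := h.hX; omega) h.hs

lemma dvd_sub_one (h : E2Data X s q t) : X ^ s ∣ (X + 1) ^ q - 1 := by
  have h1 := h.one_lt_pow
  have h2 : X ^ s - 1 + 1 ∣ (X ^ s - 1) ^ t + 1 ^ t := h.hto.nat_add_dvd_pow_add_pow _ _
  rw [one_pow, Nat.sub_add_cancel (by omega)] at h2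
  rw [h.heq]
  exact h2

lemma even_q (h : E2Data X s q t) : Even q := by
  have h1 : X ^ 2 ∣ (X + 1) ^ q - 1 := (pow_dvd_pow X (by have := h.hs; omega)).trans h.dvd_sub_one
  have h2 : ((X : ℤ)) ^ 2 ∣ (1 + (X : ℤ)) ^ q - 1 := by
    have h3 : (((X ^ 2 : ℕ)) : ℤ) ∣ (((X + 1) ^ q - 1 : ℕ) : ℤ) := by exact_mod_cast h1
    rw [Nat.cast_sub (Nat.one_le_pow _ _ (by omega))] at h3
    push_cast at h3
    rwa [add_comm] at h3
  obtain ⟨k, hk⟩ := one_add_pow_mod_sq (X : ℤ) q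
  rw [hk] at h2
  have h4 : (X : ℤ) ^ 2 ∣ q * X := by
    have h5 : (q : ℤ) * X = (1 + q * X + k * X ^ 2 - 1) - k * X ^ 2 := by ring
    rw [h5]
    exact dvd_sub h2 (Dvd.intro_left _ rfl)
  have hX0 : (X : ℤ) ≠ 0 := by
    have := h.hX
    positivity
  rw [sq] at h4
  have h6 : (X : ℤ) ∣ q := (mul_dvd_mul_iff_right hX0).1 h4
  have h7 : X ∣ q := by exact_mod_cast h6
  exact even_iff_two_dvd.2 (h.hXe.trans h7)

lemma mod_eight (h : E2Data X s q t) : (X - 1) % 8 = 1 ∨ (X - 1) % 8 = 7 := by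
  obtain ⟨w, hw⟩ := h.even_q
  have hX := h.hX
  have hXe := h.hXe
  apply mod_eight_of_two_sq (n := X - 1) (Z := (X + 1) ^ w) (M := (X ^ s - 1) ^ t)
  · rw [Nat.odd_iff]; omega
  · have h1 : X - 1 ∣ X ^ s - 1 := by
      have := Nat.sub_dvd_pow_sub_pow X 1 s
      rwa [one_pow] at this
    exact h1.trans (dvd_pow_self _ (by have := h.ht; omega))
  · rw [← h.heq, hw, ← pow_mul]
    ring_nf

lemma prime_dvd_mod (h : E2Data X s q t) {p : ℕ} (hp : Odd p) (hd : p ∣ X - 1) :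
    p % 8 = 1 ∨ p % 8 = 7 := by
  obtain ⟨w, hw⟩ := h.even_q
  apply mod_eight_of_two_sq (n := p) (Z := (X + 1) ^ w) (M := (X ^ s - 1) ^ t) hp
  · have h1 : X - 1 ∣ X ^ s - 1 := by
      have := Nat.sub_dvd_pow_sub_pow X 1 s
      rwa [one_pow] at this
    exact hd.trans (h1.trans (dvd_pow_self _ (by have := h.ht; omega)))
  · rw [← h.heq, hw, ← pow_mul]
    ring_nf

lemma pow_dvd (h : E2Data X s q t) : X ^ (s - 1) ∣ 2 * q := by
  have hX := h.hX
  have hm := h.mod_eight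
  exact pow_dvd_two_mul (by omega) h.hXe (by omega) (by have := h.hq; omega) h.even_q h.dvd_sub_one

lemma half_dvd (h : E2Data X s q t) : X ^ 2 / 2 ∣ q := by
  have h1 : X ^ 2 ∣ 2 * q := (pow_dvd_pow X (by have := h.hs; omega)).trans h.pow_dvd
  obtain ⟨c, hc⟩ := h.hXe
  have h2 : X ^ 2 / 2 = 2 * c ^ 2 := by
    rw [hc]
    have : (2 * c) ^ 2 = 2 * (2 * c ^ 2) := by ring
    rw [this]
    omega
  rw [h2]
  have h3 : 2 * (2 * c ^ 2) ∣ 2 * q := by
    have : 2 * (2 * c ^ 2) = X ^ 2 := by rw [hc]; ring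
    rwa [this]
  exact (Nat.mul_dvd_mul_iff_left (by norm_num)).1 h3

lemma prime_cond (h : E2Data X s q t) {p : ℕ} (hp : p.Prime) (hp2 : 2 < p)
    (hdiv : p - 1 ∣ X ^ 2 / 2) : p ∣ X + 1 ∨ p ∣ X := by
  by_contra hcon
  push Not at hcon
  have h1 := h.one_lt_pow
  have hcop : Nat.Coprime q t := coprime_exponents (by omega) (by have := h.hq; omega) h.heq
  have h2 := fermat_dvd hp hp2 h.heq hcop (hdiv.trans h.half_dvd) hcon.1
  rw [Nat.sub_add_cancel (by omega)] at h2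
  exact hcon.2 (hp.dvd_of_dvd_pow h2)

lemma q_lt (h : E2Data X s q t) : q < s * t := by
  have h1 := h.one_lt_pow
  by_contra hcon
  push Not at hcon
  have h2 := pow_succ_lower (B := X ^ s - 1) (g := t) (by omega) (by have := h.ht; omega)
  rw [Nat.sub_add_cancel (by omega), ← pow_mul] at h2
  have h3 : X ^ (s * t) ≤ (X + 1) ^ (s * t) := Nat.pow_le_pow_left (by omega) _
  have h4 : (X + 1) ^ (s * t) ≤ (X + 1) ^ q := Nat.pow_le_pow_right (by omega) hcon
  have h5 := h.heq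
  omega

lemma lower (h : E2Data X s q t) : X ^ (s - 1) < 2 * (s * t) := by
  have h1 := Nat.le_of_dvd (by have := h.hq; omega) h.pow_dvd
  have h2 := h.q_lt
  omega

/-- small `D` -/
def smallCheck (d x : ℕ) : Bool :=
  let D := d ^ x
  let X := D - 1
  decide (10000 ≤ D) || decide (D % 8 = 5) || decide (D % 8 = 7) || decide ((D - 2) % 5 = 0) ||
    [3, 5, 7, 11, 13, 17, 23].any (fun p => decide ((X ^ 2 / 2) % (p - 1) = 0) && decide (D % p ≠ 0) && decide (X % p ≠ 0))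

lemma smallCheck_all : ∀ d ∈ List.range 100, ∀ x ∈ List.range 14, d % 2 = 1 → 3 ≤ d → 2 ≤ x →
    smallCheck d x = true := by
  decide +kernel

lemma small_false (h : E2Data X s q t) {d x : ℕ} (hd : 3 ≤ d) (hx : 2 ≤ x) (hdo : d % 2 = 1)
    (hD : X + 1 = d ^ x) (hsmall : d ^ x < 10000) : False := by
  have hd100 : d < 100 := by
    by_contra hcon
    push Not at hcon
    have h1 : 100 ^ 2 ≤ d ^ x := (Nat.pow_le_pow_left hcon 2).trans (Nat.pow_le_pow_right (by omega) hx)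
    omega
  have hx14 : x < 14 := by
    by_contra hcon
    push Not at hcon
    have h1 : 2 ^ 14 ≤ d ^ x := (Nat.pow_le_pow_left (by omega : 2 ≤ d) 14).trans (Nat.pow_le_pow_right (by omega) hcon)
    omega
  have hc := smallCheck_all d (List.mem_range.2 hd100) x (List.mem_range.2 hx14) hdo hd hx
  have hm := h.mod_eight
  have hX := h.hX
  simp only [smallCheck, ← hD, Nat.add_sub_cancel, Bool.or_eq_true, decide_eq_true_eq,
    List.any_eq_true, Bool.and_eq_true] at hc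
  rcases hc with (((hc | hc) | hc) | hc) | hc
  · omega
  · omega
  · omega
  · have h1 : 5 ∣ X - 1 := by omega
    have := h.prime_dvd_mod (by decide) h1
    omega
  · obtain ⟨p, hp, ⟨h1, h2⟩, h3⟩ := hc
    have hpp : p.Prime ∧ 2 < p := by
      simp only [List.mem_cons, List.mem_nil_iff, or_false] at hp
      rcases hp with rfl | rfl | rfl | rfl | rfl | rfl | rfl <;> norm_num
    rcases h.prime_cond hpp.1 hpp.2 (Nat.dvd_of_mod_eq_zero h1) with h4 | h4
    · exact h2 (Nat.mod_eq_zero_of_dvd h4)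
    · exact h3 (Nat.mod_eq_zero_of_dvd h4)

lemma s_le (k X : ℕ) (hX : 2 ≤ X) : k + 3 ≤ 3 * X ^ k := by
  induction k with
  | zero => simp
  | succ k ih =>
    have h0 : X ^ (k + 1) = X ^ k * X := pow_succ X k
    have : X ^ k * 2 ≤ X ^ k * X := Nat.mul_le_mul_left _ hX
    have h1 : 1 ≤ X ^ k := Nat.one_le_pow _ _ (by omega)
    omega

lemma s_sq_le (k X : ℕ) (hX : 4 ≤ X) : (k + 3) ^ 2 ≤ 9 * X ^ k := by
  induction k with
  | zero => simp
  | succ k ih =>
    have h0 : X ^ (k + 1) = X ^ k * X := pow_succ X k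
    have : X ^ k * 4 ≤ X ^ k * X := Nat.mul_le_mul_left _ hX
    have h1 : (k + 1 + 3) ^ 2 = (k + 3) ^ 2 + 2 * k + 7 := by ring
    have h2 : 2 * k + 7 ≤ (k + 3) ^ 2 := by nlinarith
    omega

lemma numeric1 {x lam t : ℝ} (hx : 9999 ≤ x) (h1 : lam ≤ 8.8 + (x + 1) / 10000)
    (h6 : x ^ 2 < 6 * t) : 720000 * lam ≤ t := by
  have e1 : 720000 * lam * 6 ≤ x ^ 2 := by
    have e2 : 9999 * x ≤ x ^ 2 := by
      rw [sq]
      exact mul_le_mul_of_nonneg_right hx (by linarith)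
    linarith
  linarith

lemma numeric2 {x lam t k : ℝ} (hx : 9999 ≤ x) (hk : 0 ≤ k) (h3 : lam ^ 3 ≤ 27 * (x + 1))
    (h18 : x ^ 2 * (k + 3) ≤ 18 * t) : 72000 * ((k + 3) * lam ^ 3) ≤ 1600 ^ 2 * t := by
  have e2 : 9999 * x ≤ x ^ 2 := by
    rw [sq]
    exact mul_le_mul_of_nonneg_right hx (by linarith)
  have e5 : (k + 3) * (lam ^ 3) ≤ (k + 3) * (x ^ 2) := by
    apply mul_le_mul_of_nonneg_left _ (by linarith)
    linarith
  have e6 : (k + 3) * (x ^ 2) ≤ 18 * t := by rw [mul_comm]; exact h18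
  have e7 : 0 ≤ (k + 3) * (x ^ 2) := by positivity
  linarith

/-- large `D` -/
lemma large_false (h : E2Data X s q t) (hlarge : 10000 ≤ X + 1) : False := by
  have h1 := h.one_lt_pow
  have hs := h.hs
  have ht := h.ht
  have hq := h.hq
  have hlow := h.lower
  obtain ⟨k, rfl⟩ : ∃ k, s = k + 3 := ⟨s - 3, by omega⟩
  have hk1 : k + 3 - 1 = k + 2 := by omega
  rw [hk1] at hlow
  have hsk := s_le k X (by omega)
  have hsk2 := s_sq_le k X (by omega)
  have hXk : 1 ≤ X ^ k := Nat.one_le_pow _ _ (by omega)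
  -- 6 t > X^2
  have h6t : X ^ 2 < 6 * t := by
    by_contra hcon
    push Not at hcon
    have e1 : X ^ (k + 2) = X ^ k * X ^ 2 := by rw [pow_add]
    have e2 : 2 * ((k + 3) * t) ≤ 2 * ((3 * X ^ k) * t) := by
      apply Nat.mul_le_mul_left
      exact Nat.mul_le_mul_right _ hsk
    have e3 : X ^ k * (6 * t) ≤ X ^ k * X ^ 2 := Nat.mul_le_mul_left _ hcon
    have e4 : 2 * ((3 * X ^ k) * t) = X ^ k * (6 * t) := by ring
    omega
  -- 18 t > X^2 s
  have h18t : X ^ 2 * (k + 3) ≤ 18 * t := by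
    have e1 : X ^ (k + 2) = X ^ k * X ^ 2 := by rw [pow_add]
    have e2 : (k + 3) ^ 2 * X ^ 2 ≤ 9 * X ^ k * X ^ 2 := Nat.mul_le_mul_right _ hsk2
    have e3 : 9 * X ^ k * X ^ 2 ≤ 9 * (2 * ((k + 3) * t)) := by
      rw [mul_assoc, ← e1]; omega
    have e4 : (k + 3) * (X ^ 2 * (k + 3)) ≤ (k + 3) * (18 * t) := by
      calc (k + 3) * (X ^ 2 * (k + 3)) = (k + 3) ^ 2 * X ^ 2 := by ring
        _ ≤ 9 * (2 * ((k + 3) * t)) := e2.trans e3
        _ = (k + 3) * (18 * t) := by ring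
    exact Nat.le_of_mul_le_mul_left e4 (by omega)
  set lam : ℝ := Real.log ((X + 1 : ℕ) : ℝ) with hlam
  have hXR : (9999 : ℝ) ≤ X := by
    have : 9999 ≤ X := by omega
    exact_mod_cast this
  have hlam9 : 1 ≤ lam := by
    rw [hlam, Real.le_log_iff_exp_le (by positivity)]
    push_cast
    linarith [Real.exp_one_lt_d9]
  -- upper bounds for lam
  have hlam1 : lam ≤ 8.8 + (X + 1) / 10000 := by
    have e1 : lam = Real.log 10000 + Real.log (((X : ℝ) + 1) / 10000) := by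
      rw [← Real.log_mul (by norm_num) (by positivity), hlam]
      congr 1
      push_cast
      field_simp
    have e2 : Real.log 10000 ≤ 9.75 := by
      have : Real.log 10000 ≤ Real.log (2 ^ 14) := Real.log_le_log (by norm_num) (by norm_num)
      rw [Real.log_pow] at this
      have := Real.log_two_lt_d9
      push_cast at *
      linarith
    have e3 := Real.log_le_sub_one_of_pos (show (0 : ℝ) < ((X : ℝ) + 1) / 10000 by positivity)
    linarith
  have hlam3 : lam ^ 3 ≤ 27 * (X + 1) := by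
    have e1 := Real.add_one_le_exp (lam / 3)
    have e2 : Real.exp (lam / 3) ^ 3 = X + 1 := by
      rw [← Real.exp_nat_mul, show ((3 : ℕ) : ℝ) * (lam / 3) = lam by push_cast; ring, hlam,
        Real.exp_log (by positivity)]
      push_cast
      rfl
    have e3 : (lam / 3) ^ 3 ≤ Real.exp (lam / 3) ^ 3 := by
      apply pow_le_pow_left₀ (by positivity)
      linarith
    rw [e2] at e3
    have e4 : (lam / 3) ^ 3 = lam ^ 3 / 27 := by ring
    linarith
  have hA : ((X ^ (k + 3) - 1 : ℕ) : ℝ) ≤ ((X + 1 : ℕ) : ℝ) ^ (k + 3) := by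
    have e1 : X ^ (k + 3) - 1 ≤ (X + 1) ^ (k + 3) :=
      (Nat.sub_le _ _).trans (Nat.pow_le_pow_left (by omega) _)
    exact_mod_cast e1
  have hlogA : Real.log ((X ^ (k + 3) - 1 : ℕ) : ℝ) ≤ (k + 3) * lam := by
    have e1 := Real.log_le_log (by
      have : 0 < X ^ (k + 3) - 1 := by omega
      exact_mod_cast this) hA
    rw [Real.log_pow] at e1
    push_cast at e1 ⊢
    rw [hlam]
    push_cast
    exact e1
  have h6tR : (X : ℝ) ^ 2 < 6 * t := by exact_mod_cast h6t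
  have h18tR : (X : ℝ) ^ 2 * (k + 3) ≤ 18 * t := by exact_mod_cast h18t
  have htR : (0 : ℝ) < t := by positivity
  have hlam0 : 0 < lam := by linarith
  have hcond1 : 720000 * lam ≤ t := numeric1 hXR hlam1 h6tR
  apply pillai_two (a := X + 1) (b := X ^ (k + 3) - 1) (u := q) (v := t) (by omega) (by omega)
    (by omega) (by omega) h.heq hcond1
  have e1 : (1600 : ℝ) ≤ t / (450 * lam) := by
    rw [le_div_iff₀ (by positivity)]
    linarith
  have e2 : (1600 : ℝ) ^ 2 * (t / (450 * lam)) ≤ (t / (450 * lam)) ^ 3 := by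
    have : (1600 : ℝ) ^ 2 ≤ (t / (450 * lam)) ^ 2 := pow_le_pow_left₀ (by norm_num) e1 2
    calc (1600 : ℝ) ^ 2 * (t / (450 * lam)) ≤ (t / (450 * lam)) ^ 2 * (t / (450 * lam)) :=
          mul_le_mul_of_nonneg_right this (by positivity)
      _ = (t / (450 * lam)) ^ 3 := by ring
  refine le_trans ?_ e2
  have e3 : 160 * (lam * Real.log ((X ^ (k + 3) - 1 : ℕ) : ℝ)) ≤ 160 * (lam * ((k + 3) * lam)) := by
    apply mul_le_mul_of_nonneg_left _ (by norm_num)
    exact mul_le_mul_of_nonneg_left hlogA hlam0.le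
  refine le_trans e3 ?_
  rw [← mul_div_assoc, le_div_iff₀ (by positivity)]
  -- 160 * 450 (k+3) lam^3 ≤ 1600^2 t
  have e4 : 160 * (lam * (((k : ℝ) + 3) * lam)) * (450 * lam) = 72000 * ((k + 3) * lam ^ 3) := by ring
  rw [e4]
  exact numeric2 hXR (by positivity) hlam3 h18tR

end E2Data

/-- (E2) has no solutions. -/
theorem E2_no_solution {d x y s t : ℕ} (hd : 2 ≤ d) (hx : 2 ≤ x) (hy : 2 ≤ y) (hs : 2 ≤ s)
    (ht : 2 ≤ t) (h : d ^ y = ((d ^ x - 1) ^ s - 1) ^ t + 2) : False := by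
  have hD4 : 4 ≤ d ^ x := by
    calc 4 = 2 ^ 2 := by norm_num
      _ ≤ d ^ 2 := Nat.pow_le_pow_left hd 2
      _ ≤ d ^ x := Nat.pow_le_pow_right (by omega) hx
  -- d odd
  have hdo : Odd d := by
    by_contra hne
    rw [Nat.not_odd_iff_even] at hne
    have h1 : 4 ∣ d ^ y := by
      have h2 : 2 ^ 2 ∣ d ^ 2 := pow_dvd_pow_of_dvd hne.two_dvd 2
      exact (by simpa using h2 : 4 ∣ d ^ 2).trans (pow_dvd_pow d hy)
    have h2 : 4 ∣ ((d ^ x - 1) ^ s - 1) ^ t := by
      have h3 : 2 ∣ (d ^ x - 1) ^ s - 1 := by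
        have h5 : Even (d ^ x) := Nat.even_pow.2 ⟨hne, by omega⟩
        have h6 : Odd (d ^ x - 1) := Nat.Even.sub_odd (by omega) h5 (by decide)
        have h4 : Odd ((d ^ x - 1) ^ s) := h6.pow
        exact (Nat.Odd.sub_odd h4 (by decide)).two_dvd
      have h5 : 2 ^ 2 ∣ ((d ^ x - 1) ^ s - 1) ^ 2 := pow_dvd_pow_of_dvd h3 2
      exact (by simpa using h5 : 4 ∣ ((d ^ x - 1) ^ s - 1) ^ 2).trans (pow_dvd_pow _ ht)
    omega
  have hd3 : 3 ≤ d := by
    rcases hdo with ⟨k, hk⟩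
    omega
  have hD9 : 9 ≤ d ^ x := by
    calc 9 = 3 ^ 2 := by norm_num
      _ ≤ d ^ 2 := Nat.pow_le_pow_left hd3 2
      _ ≤ d ^ x := Nat.pow_le_pow_right (by omega) hx
  obtain ⟨X, hXdef⟩ : ∃ X, d ^ x = X + 1 := ⟨d ^ x - 1, by omega⟩
  rw [hXdef, Nat.add_sub_cancel] at h
  have hX8 : 8 ≤ X := by omega
  have hXe : 2 ∣ X := by
    have : Odd (d ^ x) := hdo.pow
    rw [hXdef] at this
    have := Nat.odd_iff.1 this
    omega
  have hXs : X ^ 2 ≤ X ^ s := Nat.pow_le_pow_right (by omega) hs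
  have hX2 : 8 * X ≤ X ^ 2 := by nlinarith
  have hA1 : X + 1 < X ^ s - 1 := by omega
  -- y > x
  have hyx : x < y := by
    have h1 : d ^ x < d ^ y := by
      rw [h, hXdef]
      have : X ^ s - 1 ≤ (X ^ s - 1) ^ t := Nat.le_self_pow (by omega) _
      omega
    exact (Nat.pow_lt_pow_iff_right (by omega)).1 h1
  -- s odd
  have hso : Odd s := by
    by_contra hne
    rw [Nat.not_odd_iff_even] at hne
    have h1 : X + 1 ∣ X ^ s - 1 := by
      obtain ⟨w, hw⟩ := hne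
      have h2 : X ^ 2 - 1 ∣ (X ^ 2) ^ w - 1 := by
        have := Nat.sub_dvd_pow_sub_pow (X ^ 2) 1 w
        rwa [one_pow] at this
      rw [← pow_mul, show 2 * w = s by omega] at h2
      refine dvd_trans ?_ h2
      refine ⟨X - 1, ?_⟩
      obtain ⟨Y, rfl⟩ : ∃ Y, X = Y + 1 := ⟨X - 1, by omega⟩
      simp only [Nat.add_sub_cancel]
      have : (Y + 1) ^ 2 = (Y + 1 + 1) * Y + 1 := by ring
      omega
    have h2 : X + 1 ∣ (X ^ s - 1) ^ t := h1.trans (dvd_pow_self _ (by omega))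
    have h3 : X + 1 ∣ d ^ y := by rw [← hXdef]; exact pow_dvd_pow d hyx.le
    rw [h] at h3
    have h4 : X + 1 ∣ 2 := (Nat.dvd_add_right h2).1 h3
    have := Nat.le_of_dvd (by norm_num) h4
    omega
  have hs3 : 3 ≤ s := by
    rcases hso with ⟨k, hk⟩
    omega
  -- t odd
  have hto : Odd t := by
    by_contra hne
    rw [Nat.not_odd_iff_even] at hne
    obtain ⟨w, hw⟩ := hne
    -- X ∣ d^y - 3
    have hA2 : X ∣ (X ^ s - 1) ^ t - 1 := by
      have h1 : X ^ s ∣ (X ^ s - 1) ^ 2 - 1 := by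
        obtain ⟨Y, hY⟩ : ∃ Y, X ^ s = Y + 1 := ⟨X ^ s - 1, by omega⟩
        rw [hY, Nat.add_sub_cancel]
        refine ⟨Y - 1, ?_⟩
        obtain ⟨Z, rfl⟩ : ∃ Z, Y = Z + 1 := ⟨Y - 1, by omega⟩
        simp only [Nat.add_sub_cancel]
        have : (Z + 1) ^ 2 = (Z + 1 + 1) * Z + 1 := by ring
        omega
      have h2 : (X ^ s - 1) ^ 2 - 1 ∣ (X ^ s - 1) ^ t - 1 := by
        have := Nat.sub_dvd_pow_sub_pow ((X ^ s - 1) ^ 2) 1 w
        rw [one_pow, ← pow_mul, show 2 * w = t by omega] at this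
        exact this
      exact (dvd_pow_self X (by omega)).trans (h1.trans h2)
    have hmod := Nat.pow_sub_one_mod_pow_sub_one d x y
    rw [hXdef, Nat.add_sub_cancel] at hmod
    set r := y % x with hr
    have hrx : r < x := Nat.mod_lt _ (by omega)
    have hdr : d ^ r * 3 ≤ d ^ x := by
      calc d ^ r * 3 ≤ d ^ r * d := Nat.mul_le_mul_left _ hd3
        _ = d ^ (r + 1) := (pow_succ d r).symm
        _ ≤ d ^ x := Nat.pow_le_pow_right (by omega) hrx
    have hdr1 : 1 ≤ d ^ r := Nat.one_le_pow _ _ (by omega)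
    have hAt : 1 ≤ (X ^ s - 1) ^ t := Nat.one_le_pow _ _ (by omega)
    obtain ⟨c, hc⟩ := hA2
    have h3 : d ^ y - 1 = X * c + 2 := by omega
    rw [h3, Nat.mul_add_mod, Nat.mod_eq_of_lt (by omega)] at hmod
    have h4 : d ^ r = 3 := by omega
    have hd3' : d = 3 := by
      have hr0 : r ≠ 0 := by
        intro h0
        rw [h0, pow_zero] at h4
        omega
      have : d ∣ 3 := by rw [← h4]; exact dvd_pow_self d hr0
      exact (Nat.dvd_prime (by norm_num)).1 this |>.resolve_left (by omega)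
    subst hd3'
    have h5 := three_pow_eq_sq_add_two (y := y) (C := (X ^ s - 1) ^ w) (by
      rw [h, ← pow_mul]
      congr 2
      omega)
    have h6 : 3 ^ y ≤ 3 ^ 3 := Nat.pow_le_pow_right (by norm_num) h5
    have h7 : X ^ s - 1 ≤ (X ^ s - 1) ^ t := Nat.le_self_pow (by omega) _
    have h8 : 8 ^ 2 ≤ X ^ 2 := Nat.pow_le_pow_left hX8 2
    omega
  have ht3 : 3 ≤ t := by
    rcases hto with ⟨k, hk⟩
    omega
  -- x ∣ y
  have hXs1 : X ∣ d ^ y - 1 := by
    have h2 : X ^ s - 1 + 1 ∣ (X ^ s - 1) ^ t + 1 ^ t := hto.nat_add_dvd_pow_add_pow _ _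
    rw [one_pow, Nat.sub_add_cancel (by omega)] at h2
    rw [h]
    exact (dvd_pow_self X (by omega)).trans h2
  have hxy : x ∣ y := by
    have hmod := Nat.pow_sub_one_mod_pow_sub_one d x y
    rw [hXdef, Nat.add_sub_cancel, Nat.mod_eq_zero_of_dvd hXs1] at hmod
    apply Nat.dvd_of_mod_eq_zero
    by_contra hr0
    have : d ^ 1 ≤ d ^ (y % x) := Nat.pow_le_pow_right (by omega) (by omega)
    rw [pow_one] at this
    omega
  obtain ⟨q, rfl⟩ := hxy
  have hq2 : 2 ≤ q := by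
    by_contra hcon
    have : x * q ≤ x * 1 := Nat.mul_le_mul_left _ (by omega)
    omega
  rw [pow_mul, hXdef] at h
  have hdata : E2Data X s q t := ⟨hX8, hXe, hs3, ht3, hto, hq2, h⟩
  rcases Nat.lt_or_ge (d ^ x) 10000 with hlt | hge
  · exact hdata.small_false hd3 hx (Nat.odd_iff.1 hdo) hXdef.symm hlt
  · exact hdata.large_false (by omega)

end Pool.Agent.Lib.MP_545343_nt
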