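import Mathlib
import Pool.Agent.Lib.MP_545343_nt.Basic
import Pool.Agent.Lib.MP_545343_nt.E1

/-!
# Equation (E3)
-/

set_option autoImplicit false

namespace Pool.Agent.Lib.MP_545343_nt

/-- Structural facts for the equation `(d^x+1)^s = (d^y-1)^m + 2`. -/
structure E3Data (d x y s m : ℕ) : Prop where
  hd : 2 ≤ d
  hde : 2 ∣ d
  hx : 2 ≤ x
  hxy : x < y
  hs : 2 ≤ s
  hm : 3 ≤ m
  hmo : Odd m
  heq : (d ^ x + 1) ^ s = (d ^ y - 1) ^ m + 2

namespace E3Data

variable {d x y s m : ℕ}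

lemma four_dvd (h : E3Data d x y s m) : 4 ∣ d ^ x := by
  have h2 : 2 ^ 2 ∣ d ^ 2 := pow_dvd_pow_of_dvd h.hde 2
  exact (by simpa using h2 : 4 ∣ d ^ 2).trans (pow_dvd_pow d h.hx)

lemma U_ge (h : E3Data d x y s m) : 4 ≤ d ^ x := by
  exact Nat.le_of_dvd (by have := h.hd; positivity) h.four_dvd

lemma V_ge (h : E3Data d x y s m) : 2 * d ^ x ≤ d ^ y := by
  calc 2 * d ^ x ≤ d * d ^ x := Nat.mul_le_mul_right _ h.hd
    _ = d ^ (x + 1) := by ring
    _ ≤ d ^ y := Nat.pow_le_pow_right (by have := h.hd; omega) h.hxy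

lemma dvd1 (h : E3Data d x y s m) : d ^ y ∣ (d ^ x + 1) ^ s - 1 := by
  have h1 := h.U_ge
  have h2 := h.V_ge
  have h3 : d ^ y - 1 + 1 ∣ (d ^ y - 1) ^ m + 1 ^ m := h.hmo.nat_add_dvd_pow_add_pow _ _
  rw [one_pow, Nat.sub_add_cancel (by omega)] at h3
  rw [h.heq]
  exact h3

lemma even_s (h : E3Data d x y s m) : Even s := by
  have h1 : 2 * d ^ x ∣ (d ^ x + 1) ^ s - 1 := by
    refine dvd_trans ?_ h.dvd1
    calc 2 * d ^ x ∣ d * d ^ x := mul_dvd_mul_right h.hde _
      _ = d ^ (x + 1) := by ring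
      _ ∣ d ^ y := pow_dvd_pow _ h.hxy
  obtain ⟨k, hk⟩ := one_add_pow_mod_sq ((d : ℤ) ^ x) s
  have h2 : (2 * (d : ℤ) ^ x) ∣ (1 + (d : ℤ) ^ x) ^ s - 1 := by
    have h3 : ((2 * d ^ x : ℕ) : ℤ) ∣ (((d ^ x + 1) ^ s - 1 : ℕ) : ℤ) := by exact_mod_cast h1
    rw [Nat.cast_sub (Nat.one_le_pow _ _ (by omega))] at h3
    push_cast at h3
    rwa [add_comm] at h3
  rw [hk] at h2
  obtain ⟨c, hc⟩ : (4 : ℤ) ∣ (d : ℤ) ^ x := by exact_mod_cast h.four_dvd
  have hd0 : (d : ℤ) ^ x ≠ 0 := by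
    have := h.hd
    positivity
  have h4 : 2 * (d : ℤ) ^ x ∣ s * (d : ℤ) ^ x := by
    have h5 : (s : ℤ) * (d : ℤ) ^ x = (1 + s * (d : ℤ) ^ x + k * ((d : ℤ) ^ x) ^ 2 - 1) -
        k * ((d : ℤ) ^ x) ^ 2 := by ring
    rw [h5]
    refine dvd_sub h2 ?_
    refine ⟨k * 2 * c, ?_⟩
    rw [sq]
    nth_rewrite 2 [hc]
    ring
  have h6 : (2 : ℤ) ∣ s := (mul_dvd_mul_iff_right hd0).1 h4
  have h7 : 2 ∣ s := by exact_mod_cast h6
  exact even_iff_two_dvd.2 h7

lemma coprime (h : E3Data d x y s m) : Nat.Coprime s m := by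
  have h1 := h.U_ge
  have h2 := h.V_ge
  exact coprime_exponents (by omega) (by have := h.hs; omega) h.heq

lemma W_dvd (h : E3Data d x y s m) : d ^ (y - x) ∣ s := by
  have hd := h.hd
  have hs := h.hs
  have hU := h.U_ge
  have hd0 : d ≠ 0 := by omega
  have hpos : 0 < (d ^ x + 1) ^ s - 1 := by
    have : (d ^ x + 1) ^ 1 ≤ (d ^ x + 1) ^ s := Nat.pow_le_pow_right (by omega) (by omega)
    rw [pow_one] at this
    omega
  rw [← Nat.factorization_le_iff_dvd (pow_ne_zero _ hd0) (by omega)]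
  intro p
  by_cases hp : p.Prime
  swap
  · rw [Nat.factorization_eq_zero_of_not_prime _ hp]; exact Nat.zero_le _
  have : Fact p.Prime := ⟨hp⟩
  rw [Nat.factorization_def _ hp, Nat.factorization_def _ hp, padicValNat.pow]
  by_cases hpd : p ∣ d
  swap
  · rw [padicValNat.eq_zero_of_not_dvd hpd]; simp
  have hvs : y * padicValNat p d ≤ padicValNat p ((d ^ x + 1) ^ s - 1) := by
    have h1 : p ^ (y * padicValNat p d) ∣ (d ^ x + 1) ^ s - 1 := by
      refine dvd_trans ?_ h.dvd1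
      rw [mul_comm, pow_mul]
      exact pow_dvd_pow_of_dvd pow_padicValNat_dvd y
    exact (padicValNat_dvd_iff_le hpos.ne').1 h1
  have hxy := h.hxy
  have hsplit : y * padicValNat p d = (y - x) * padicValNat p d + x * padicValNat p d := by
    rw [← add_mul]
    congr 1
    omega
  have hpU : p ∣ d ^ x := dvd_pow hpd (by have := h.hx; omega)
  by_cases hp2 : p = 2
  · subst hp2
    have hlte := padicValNat.pow_two_sub_pow (x := d ^ x + 1) (y := 1) (by omega)
      (by simpa using hpU) (by omega) (by omega : s ≠ 0) h.even_s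
    rw [one_pow] at hlte
    simp only [Nat.add_sub_cancel] at hlte
    have h4 := h.four_dvd
    have h1 : padicValNat 2 (d ^ x + 1 + 1) ≤ 1 := by
      by_contra hcon
      push Not at hcon
      have h2 : 2 ^ 2 ∣ d ^ x + 1 + 1 := (padicValNat_dvd_iff_le (by omega)).2 hcon
      omega
    have h5 : padicValNat 2 (d ^ x) = x * padicValNat 2 d := padicValNat.pow _ _
    omega
  · have hodd : Odd p := hp.odd_of_ne_two hp2
    have hlte := padicValNat.pow_sub_pow (p := p) hodd (x := d ^ x + 1) (y := 1) (by omega)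
      (by simpa using hpU) (by
        intro hdd
        have h1 : p ∣ 1 := (Nat.dvd_add_right hpU).1 hdd
        exact hp.one_lt.ne' (Nat.dvd_one.1 h1)) (by omega : s ≠ 0)
    rw [one_pow] at hlte
    simp only [Nat.add_sub_cancel] at hlte
    have h5 : padicValNat p (d ^ x) = x * padicValNat p d := padicValNat.pow _ _
    omega

lemma prime_cond (h : E3Data d x y s m) {p : ℕ} (hp : p.Prime) (hp2 : 2 < p)
    (hdiv : p - 1 ∣ s) : p ∣ d ^ x + 1 ∨ p ∣ d := by
  by_contra hcon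
  push Not at hcon
  have h1 := h.U_ge
  have h2 := h.V_ge
  have h3 := fermat_dvd hp hp2 h.heq h.coprime hdiv hcon.1
  rw [Nat.sub_add_cancel (by omega)] at h3
  exact hcon.2 (hp.dvd_of_dvd_pow h3)

/-- odd divisors of `d - 1` are `±1` modulo 8. -/
lemma mod_eight (h : E3Data d x y s m) {n : ℕ} (hn : Odd n) (hdiv : n ∣ d - 1) :
    n % 8 = 1 ∨ n % 8 = 7 := by
  obtain ⟨w, hw⟩ := h.even_s
  apply mod_eight_of_two_sq (n := n) (Z := (d ^ x + 1) ^ w) (M := (d ^ y - 1) ^ m) hn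
  · have h1 : d - 1 ∣ d ^ y - 1 := by
      have := Nat.sub_dvd_pow_sub_pow d 1 y
      rwa [one_pow] at this
    exact hdiv.trans (h1.trans (dvd_pow_self _ (by have := h.hm; omega)))
  · rw [← h.heq, hw, ← pow_mul]
    ring_nf

lemma d_mod_eight (h : E3Data d x y s m) : d % 8 = 0 ∨ d % 8 = 2 := by
  have hd := h.hd
  have hde := h.hde
  have := h.mod_eight (n := d - 1) (by rw [Nat.odd_iff]; omega) dvd_rfl
  omega

lemma d_dvd_s (h : E3Data d x y s m) : d ∣ s :=
  (dvd_pow_self d (by have := h.hxy; omega)).trans h.W_dvd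

/-- if `x` is even then primes `p ≡ 3 mod 4` with `p - 1 ∣ s` divide `d`. -/
lemma prime_cond_even (h : E3Data d x y s m) (hxe : Even x) {p : ℕ} (hp : p.Prime)
    (hp4 : p % 4 = 3) (hdiv : p - 1 ∣ s) : p ∣ d := by
  rcases h.prime_cond hp (by omega) hdiv with h1 | h1
  · exfalso
    have : Fact p.Prime := ⟨hp⟩
    obtain ⟨w, hw⟩ := hxe
    have h2 : IsSquare (-1 : ZMod p) := by
      refine ⟨(d : ZMod p) ^ w, ?_⟩
      have h3 : ((d ^ x + 1 : ℕ) : ZMod p) = 0 := (ZMod.natCast_eq_zero_iff _ _).2 h1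
      push_cast at h3
      rw [hw, pow_add] at h3
      linear_combination -h3
    exact (ZMod.exists_sq_eq_neg_one_iff.1 h2) hp4
  · exact h1

lemma d_ge_of_even (h : E3Data d x y s m) (hxe : Even x) : 5418 ≤ d := by
  have hd := h.hd
  have h2s : 2 ∣ s := h.even_s.two_dvd
  have h3 : 3 ∣ d := h.prime_cond_even hxe (by norm_num) (by norm_num) h2s
  have h3s : 3 ∣ s := h3.trans h.d_dvd_s
  have h7 : 7 ∣ d := h.prime_cond_even hxe (by norm_num) (by norm_num) (by omega)
  have h7s : 7 ∣ s := h7.trans h.d_dvd_s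
  have h43 : 43 ∣ d := h.prime_cond_even hxe (by norm_num) (by norm_num) (by omega)
  have h8 := h.d_mod_eight
  omega

lemma odd_y (h : E3Data d x y s m) (hxo : Odd x) : Odd y := by
  by_contra hne
  rw [Nat.not_odd_iff_even] at hne
  have hd := h.hd
  have h1 : d + 1 ∣ d ^ x + 1 := by
    have := hxo.nat_add_dvd_pow_add_pow d 1
    rwa [one_pow] at this
  have h2 : d + 1 ∣ d ^ y - 1 := by
    obtain ⟨w, hw⟩ := hne
    have h3 : d ^ 2 - 1 ∣ (d ^ 2) ^ w - 1 := by
      have := Nat.sub_dvd_pow_sub_pow (d ^ 2) 1 w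
      rwa [one_pow] at this
    rw [← pow_mul, show 2 * w = y by omega] at h3
    refine dvd_trans ?_ h3
    obtain ⟨e, rfl⟩ : ∃ e, d = e + 1 := ⟨d - 1, by omega⟩
    refine ⟨e, ?_⟩
    have : (e + 1) ^ 2 = (e + 1 + 1) * e + 1 := by ring
    omega
  have h3 : d + 1 ∣ (d ^ x + 1) ^ s := h1.trans (dvd_pow_self _ (by have := h.hs; omega))
  have h4 : d + 1 ∣ (d ^ y - 1) ^ m := h2.trans (dvd_pow_self _ (by have := h.hm; omega))
  rw [h.heq] at h3
  have h5 : d + 1 ∣ 2 := (Nat.dvd_add_right h4).1 h3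
  have := Nat.le_of_dvd (by norm_num) h5
  omega

lemma sq_dvd_s (h : E3Data d x y s m) (hxo : Odd x) : d ^ 2 ∣ s := by
  have h1 := Nat.odd_iff.1 (h.odd_y hxo)
  have h2 := Nat.odd_iff.1 hxo
  have h3 := h.hxy
  exact (pow_dvd_pow d (by omega)).trans h.W_dvd

/-- test for the solvability of `d^x ≡ -1 mod p` in odd `x`. -/
lemma odd_exponent_test {p a b : ℕ} (hp : p.Prime) (hb : Odd b)
    (hpab : p - 1 = 2 ^ a * b) (hpd : ¬ p ∣ d) (hxo : Odd x) (hdvd : p ∣ d ^ x + 1) :
    p ∣ d ^ b + 1 := by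
  have : Fact p.Prime := ⟨hp⟩
  have hd0 : (d : ZMod p) ≠ 0 := fun h0 => hpd ((ZMod.natCast_eq_zero_iff _ _).1 h0)
  have h1 : (d : ZMod p) ^ x = -1 := by
    have h3 : ((d ^ x + 1 : ℕ) : ZMod p) = 0 := (ZMod.natCast_eq_zero_iff _ _).2 hdvd
    push_cast at h3
    linear_combination h3
  set g : ZMod p := (d : ZMod p) ^ b with hg
  have h2 : g ^ x = -1 := by
    rw [hg, ← pow_mul, mul_comm, pow_mul, h1, hb.neg_one_pow]
  have h3 : g ^ (2 ^ a) = 1 := by
    rw [hg, ← pow_mul, mul_comm, ← hpab]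
    exact ZMod.pow_card_sub_one_eq_one hd0
  have h4 : g ^ (x * 2) = 1 := by rw [pow_mul, h2]; ring
  have h5 : orderOf g ∣ 2 := by
    have h6 : orderOf g ∣ 2 ^ a := orderOf_dvd_of_pow_eq_one h3
    have h7 : orderOf g ∣ x * 2 := orderOf_dvd_of_pow_eq_one h4
    have h8 : Nat.Coprime (orderOf g) x := by
      apply Nat.Coprime.coprime_dvd_left h6
      apply Nat.Coprime.pow_left
      exact (Nat.coprime_two_left).2 hxo
    exact h8.dvd_of_dvd_mul_left h7
  have h6 : g ^ 2 = 1 := orderOf_dvd_iff_pow_eq_one.1 h5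
  obtain ⟨k, hk⟩ := hxo
  have h7 : g = -1 := by
    rw [hk, pow_add, pow_mul, h6, one_pow, one_mul, pow_one] at h2
    exact h2
  have h8 : ((d ^ b + 1 : ℕ) : ZMod p) = 0 := by
    push_cast
    rw [← hg, h7]
    ring
  exact (ZMod.natCast_eq_zero_iff _ _).1 h8

/-- list of `(p, a, b)` with `p - 1 = 2^a b`. -/
def plist : List (ℕ × ℕ × ℕ) :=
  [(5, 2, 1), (7, 1, 3), (11, 1, 5), (13, 2, 3), (17, 4, 1), (31, 1, 15), (101, 2, 25),
    (149, 2, 37), (389, 2, 97)]

lemma plist_prop : ∀ q ∈ plist, q.1.Prime ∧ 2 < q.1 ∧ Odd q.2.2 ∧ q.1 - 1 = 2 ^ q.2.1 * q.2.2 := by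
  intro q hq
  simp only [plist, List.mem_cons, List.mem_nil_iff, or_false] at hq
  rcases hq with rfl | rfl | rfl | rfl | rfl | rfl | rfl | rfl | rfl <;>
    refine ⟨by norm_num, by norm_num, by decide, by norm_num⟩

/-- the finite check -/
def smallCheck (d : ℕ) : Bool :=
  decide (d % 8 ≠ 0 ∧ d % 8 ≠ 2) ||
  (List.range 200).any (fun n => decide (n % 2 = 1) && decide ((d - 1) % n = 0) &&
    (decide (n % 8 = 3) || decide (n % 8 = 5))) ||
  plist.any (fun q => decide (d ^ 2 % (q.1 - 1) = 0) && decide (d % q.1 ≠ 0) &&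
    decide ((d ^ q.2.2 + 1) % q.1 ≠ 0))

lemma smallCheck_all : ∀ d ∈ List.range 200, 2 ≤ d → smallCheck d = true := by
  decide +kernel

lemma small_false (h : E3Data d x y s m) (hxo : Odd x) (hd : d < 200) : False := by
  have hc := smallCheck_all d (List.mem_range.2 hd) h.hd
  have hm8 := h.d_mod_eight
  simp only [smallCheck, Bool.or_eq_true, decide_eq_true_eq, List.any_eq_true,
    Bool.and_eq_true] at hc
  rcases hc with (hc | hc) | hc
  · omega
  · obtain ⟨n, -, ⟨h1, h2⟩, h3⟩ := hc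
    have := h.mod_eight (n := n) (Nat.odd_iff.2 h1) (Nat.dvd_of_mod_eq_zero h2)
    omega
  · obtain ⟨q, hq, ⟨h1, h2⟩, h3⟩ := hc
    obtain ⟨hp, hp2, hb, hab⟩ := plist_prop q hq
    have hdiv : q.1 - 1 ∣ s := (Nat.dvd_of_mod_eq_zero h1).trans (h.sq_dvd_s hxo)
    have hpd : ¬ q.1 ∣ d := fun h0 => h2 (Nat.mod_eq_zero_of_dvd h0)
    rcases h.prime_cond hp hp2 hdiv with h4 | h4
    · exact h3 (Nat.mod_eq_zero_of_dvd (odd_exponent_test hp hb hab hpd hxo h4))
    · exact hpd h4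

/-- growth of `d^n` -/
lemma pow_growth {d n : ℕ} (h : (200 ≤ d ∧ 3 ≤ n) ∨ (5418 ≤ d ∧ 2 ≤ n)) :
    1500000 * (n + 1) ≤ d ^ n := by
  have step : ∀ k, 200 ≤ d → 1500000 * (k + 1) ≤ d ^ k → 1500000 * (k + 1 + 1) ≤ d ^ (k + 1) := by
    intro k hd hk
    have h1 : d ^ (k + 1) = d ^ k * d := pow_succ d k
    have h2 : d ^ k * 200 ≤ d ^ k * d := Nat.mul_le_mul_left _ hd
    omega
  rcases h with ⟨hd, hn⟩ | ⟨hd, hn⟩
  · induction n, hn using Nat.le_induction with
    | base =>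
      have : 200 ^ 3 ≤ d ^ 3 := Nat.pow_le_pow_left hd 3
      omega
    | succ k hk ih => exact step k hd ih
  · induction n, hn using Nat.le_induction with
    | base =>
      have : 5418 ^ 2 ≤ d ^ 2 := Nat.pow_le_pow_left hd 2
      omega
    | succ k hk ih => exact step k (by omega) ih

lemma sx_lt (h : E3Data d x y s m) : s * x < m * y := by
  by_contra hcon
  push Not at hcon
  have hd := h.hd
  have hU := h.U_ge
  have hV := h.V_ge
  have h1 := pow_succ_lower (B := d ^ y - 1) (g := m) (by omega) (by have := h.hm; omega)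
  rw [Nat.sub_add_cancel (by omega), ← pow_mul] at h1
  have h2 : d ^ (y * m) ≤ d ^ (x * s) := Nat.pow_le_pow_right (by omega) (by nlinarith)
  rw [pow_mul d x s] at h2
  have h3 : (d ^ x) ^ s ≤ (d ^ x + 1) ^ s := Nat.pow_le_pow_left (by omega) _
  have := h.heq
  omega

lemma m_lt_s (h : E3Data d x y s m) : m < s := by
  by_contra hcon
  push Not at hcon
  have hU := h.U_ge
  have hV := h.V_ge
  have h1 : (d ^ x + 1) ^ s ≤ (d ^ y - 1) ^ s := Nat.pow_le_pow_left (by omega) _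
  have h2 : (d ^ y - 1) ^ s ≤ (d ^ y - 1) ^ m := Nat.pow_le_pow_right (by omega) hcon
  have := h.heq
  omega

/-- numeric lemma for the first condition -/
lemma numeric_s {U V lam s m : ℝ} (hU : 4 ≤ U) (hV : 200 * U ≤ V) (hs : 0 < s)
    (hm : m ≤ s) (h : lam < s / U + m / (V - 1)) : 0.995 * lam * U ≤ s := by
  have hU0 : 0 < U := by linarith
  have h1 : 199 * U ≤ V - 1 := by linarith
  have h2 : m / (V - 1) ≤ s / (199 * U) := by
    apply div_le_div₀ hs.le hm (by positivity) h1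
  have h3 : s / (199 * U) = s / U / 199 := by field_simp
  have h4 : lam < s / U * (200 / 199) := by linarith
  have h5 : lam * U < s * (200 / 199) := by
    have := mul_lt_mul_of_pos_right h4 hU0
    rwa [show s / U * (200 / 199) * U = s * (200 / 199) by field_simp] at this
  linarith

/-- large case -/
lemma large_false (h : E3Data d x y s m)
    (hlarge : (200 ≤ d ∧ 3 ≤ x) ∨ (5418 ≤ d ∧ 2 ≤ x)) : False := by
  have hd200 : 200 ≤ d := by omega
  have hx := h.hx
  have hxy := h.hxy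
  have hs := h.hs
  have hm := h.hm
  have hU := h.U_ge
  have hsx := h.sx_lt
  have hms := h.m_lt_s
  have heq := h.heq
  have hWs : d ^ (y - x) ≤ s := Nat.le_of_dvd (by omega) h.W_dvd
  have hV200 : 200 * d ^ x ≤ d ^ y := by
    calc 200 * d ^ x ≤ d * d ^ x := Nat.mul_le_mul_right _ hd200
      _ = d ^ (x + 1) := by ring
      _ ≤ d ^ y := Nat.pow_le_pow_right (by omega) hxy
  have hgx := pow_growth hlarge
  -- real quantities
  set lam : ℝ := Real.log d with hlam
  set U : ℝ := (d : ℝ) ^ x with hUdef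
  set V : ℝ := (d : ℝ) ^ y with hVdef
  have hd0 : (0 : ℝ) < d := by positivity
  have hdR : (200 : ℝ) ≤ d := by exact_mod_cast hd200
  have hlam1 : 5 ≤ lam := by
    rw [hlam, Real.le_log_iff_exp_le hd0]
    have h1 : Real.exp 5 = (Real.exp 1) ^ 5 := by rw [← Real.exp_nat_mul]; norm_num
    rw [h1]
    have h2 : (Real.exp 1) ^ 5 ≤ (2.7182818286 : ℝ) ^ 5 :=
      pow_le_pow_left₀ (Real.exp_pos 1).le Real.exp_one_lt_d9.le _
    refine h2.trans (le_trans ?_ hdR)
    norm_num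
  have hlamd : lam ≤ d := (Real.log_le_sub_one_of_pos hd0).trans (by linarith)
  have hU0 : 0 < U := by positivity
  have hV0 : 0 < V := by positivity
  have hUR : (4 : ℝ) ≤ U := by rw [hUdef]; exact_mod_cast hU
  have hVR : 200 * U ≤ V := by rw [hUdef, hVdef]; exact_mod_cast hV200
  have hUbig : (1500000 : ℝ) * (x + 1) ≤ U := by rw [hUdef]; exact_mod_cast hgx
  have hxR : (2 : ℝ) ≤ x := by exact_mod_cast hx
  have hxyR : (x : ℝ) + 1 ≤ y := by exact_mod_cast hxy
  have hsR : (2 : ℝ) ≤ s := by exact_mod_cast hs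
  have hmR : (3 : ℝ) ≤ m := by exact_mod_cast hm
  have hmsR : (m : ℝ) ≤ s := by exact_mod_cast hms.le
  have hsxR : (s : ℝ) * x + 1 ≤ m * y := by exact_mod_cast hsx
  have hlogU : Real.log U = x * lam := by rw [hUdef, Real.log_pow]
  have hlogV : Real.log V = y * lam := by rw [hVdef, Real.log_pow]
  have ha : ((d ^ x + 1 : ℕ) : ℝ) = U + 1 := by push_cast; rfl
  have hb : ((d ^ y - 1 : ℕ) : ℝ) = V - 1 := by
    rw [Nat.cast_sub (by omega)]; push_cast; rfl
  -- logs of U+1, V-1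
  have hlU1 : Real.log (U + 1) ≤ x * lam + 1 / U := by
    rw [← hlogU]
    have h1 : Real.log (U + 1) - Real.log U = Real.log (1 + 1 / U) := by
      rw [← Real.log_div (by positivity) (by positivity)]
      congr 1
      field_simp
    have h2 := Real.log_le_sub_one_of_pos (show 0 < 1 + 1 / U by positivity)
    linarith
  have hV1pos : 0 < V - 1 := by linarith
  have hlV1 : y * lam ≤ Real.log (V - 1) + 1 / (V - 1) := by
    rw [← hlogV]
    have h1 : Real.log V - Real.log (V - 1) = Real.log (1 + 1 / (V - 1)) := by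
      rw [← Real.log_div (by positivity) (by positivity)]
      congr 1
      field_simp
      ring
    have h2 := Real.log_le_sub_one_of_pos (show 0 < 1 + 1 / (V - 1) by positivity)
    linarith
  have hlV1' : Real.log (V - 1) ≤ y * lam := by
    rw [← hlogV]
    exact Real.log_le_log hV1pos (by linarith)
  -- s log (U+1) > m log (V-1)
  have hlt : m * Real.log (V - 1) < s * Real.log (U + 1) := by
    rw [← Real.log_pow, ← Real.log_pow]
    apply Real.log_lt_log (by positivity)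
    rw [← ha, ← hb]
    have : (d ^ y - 1) ^ m < (d ^ x + 1) ^ s := by omega
    exact_mod_cast this
  have hkey : lam < s / U + m / (V - 1) := by
    have h1 : (s : ℝ) * (x * lam) + lam ≤ m * (y * lam) := by
      have := mul_le_mul_of_nonneg_right hsxR (by linarith : 0 ≤ lam)
      linarith
    have h2 : m * (y * lam) ≤ m * (Real.log (V - 1) + 1 / (V - 1)) :=
      mul_le_mul_of_nonneg_left hlV1 (by linarith)
    have h3 : s * Real.log (U + 1) ≤ s * (x * lam + 1 / U) :=
      mul_le_mul_of_nonneg_left hlU1 (by linarith)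
    have h4 : (s : ℝ) / U = s * (1 / U) := by ring
    have h5 : (m : ℝ) / (V - 1) = m * (1 / (V - 1)) := by ring
    rw [h4, h5]
    linarith
  have hsU : 0.995 * lam * U ≤ s := numeric_s hUR hVR (by linarith) hmsR hkey
  set z : ℝ := y * lam with hz
  have hy3 : (3 : ℝ) ≤ y := by linarith
  have hz15 : 15 ≤ z := by
    calc (15 : ℝ) = 3 * 5 := by norm_num
      _ ≤ y * lam := mul_le_mul hy3 hlam1 (by norm_num) (by linarith)
  -- s ≥ 746250 z
  have hsz : 746250 * z ≤ s := by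
    rcases Nat.lt_or_ge (2 * x) y with hcase | hcase
    · -- y > 2x
      have hw : (200 ≤ d ∧ 3 ≤ y - x - 1) ∨ (5418 ≤ d ∧ 2 ≤ y - x - 1) := by omega
      have hgw := pow_growth hw
      have h1 : d ^ (y - x) = d * d ^ (y - x - 1) := by
        rw [← pow_succ']; congr 1; omega
      have h2 : d * (1500000 * (y - x - 1 + 1)) ≤ s := by
        refine le_trans ?_ hWs
        rw [h1]
        exact Nat.mul_le_mul_left _ hgw
      have h3 : d * (750000 * y) ≤ s := by
        refine le_trans (Nat.mul_le_mul_left _ ?_) h2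
        omega
      have h4 : (d : ℝ) * (750000 * y) ≤ s := by exact_mod_cast h3
      have h5 : lam * (750000 * y) ≤ d * (750000 * y) :=
        mul_le_mul_of_nonneg_right hlamd (by linarith)
      have h6 : lam * (750000 * y) = 750000 * z := by rw [hz]; ring
      linarith
    · have hyR : (y : ℝ) ≤ 2 * x := by exact_mod_cast hcase
      have h1 : 0.995 * lam * (1500000 * (x + 1)) ≤ 0.995 * lam * U :=
        mul_le_mul_of_nonneg_left hUbig (by linarith)
      have h2 : 746250 * z ≤ 0.995 * lam * (1500000 * (x + 1)) := by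
        have h3 : 0.995 * lam * (1500000 * (x + 1)) = 746250 * ((2 * x + 2) * lam) := by ring
        rw [h3, hz]
        apply mul_le_mul_of_nonneg_left _ (by norm_num)
        exact mul_le_mul_of_nonneg_right (by linarith) (by linarith)
      linarith
  -- s^2 ≥ 0.995 V
  have hs2 : 0.995 * V ≤ (s : ℝ) ^ 2 := by
    have h1 : ((d : ℝ) ^ (y - x)) ≤ s := by exact_mod_cast hWs
    have h2 : V = U * (d : ℝ) ^ (y - x) := by
      rw [hVdef, hUdef, ← pow_add]; congr 1; omega
    have h3 : 0.995 * U ≤ s := by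
      have : 0.995 * 1 * U ≤ 0.995 * lam * U := by
        apply mul_le_mul_of_nonneg_right _ hU0.le
        linarith
      linarith
    calc 0.995 * V = (0.995 * U) * (d : ℝ) ^ (y - x) := by rw [h2]; ring
      _ ≤ s * s := mul_le_mul h3 h1 (by positivity) (by linarith)
      _ = (s : ℝ) ^ 2 := by ring
  have hVexp : V = Real.exp z := by
    rw [← hlogV, Real.exp_log hV0]
  have hz0 : 0 < z := by linarith
  have hsz3 : 1.05 * z ^ 3 ≤ 35 * s := by
    have h1 : z ^ 7 / 5040 ≤ Real.exp z := by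
      have := Real.pow_div_factorial_le_exp z hz0.le 7
      simpa [Nat.factorial] using this
    have h2 : z ^ 6 * (15 / 5040) ≤ z ^ 7 / 5040 := by
      have : z ^ 6 * 15 ≤ z ^ 6 * z := mul_le_mul_of_nonneg_left hz15 (by positivity)
      have h3 : z ^ 6 * z = z ^ 7 := by ring
      linarith
    have h3 : (1.05 * z ^ 3) ^ 2 ≤ (35 * (s : ℝ)) ^ 2 := by
      have h4 : (1.05 * z ^ 3) ^ 2 = 1.1025 * z ^ 6 := by ring
      have h5 : (35 * (s : ℝ)) ^ 2 = 1225 * (s : ℝ) ^ 2 := by ring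
      rw [h4, h5]
      have h6 : 0 ≤ z ^ 6 := by positivity
      rw [hVexp] at hs2
      linarith
    exact le_of_sq_le_sq h3 (by linarith)
  -- upper bound of log (U+1)
  have hxlam : 10 ≤ x * lam := by
    calc (10 : ℝ) = 2 * 5 := by norm_num
      _ ≤ x * lam := mul_le_mul hxR hlam1 (by norm_num) (by linarith)
  have hlU2 : Real.log (U + 1) ≤ 1.01 * (x * lam) := by
    have h1 : 1 / U ≤ 1 / 4 := one_div_le_one_div_of_le (by norm_num) hUR
    have h2 : 1 / U ≤ 0.1 := by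
      have : (10 : ℝ) ≤ U := by linarith
      have := one_div_le_one_div_of_le (by norm_num) this
      linarith
    linarith
  have hlUpos : 1 ≤ Real.log (U + 1) := by
    rw [Real.le_log_iff_exp_le (by positivity)]
    linarith [Real.exp_one_lt_d9]
  have hy0 : (0 : ℝ) < y := by linarith
  -- first condition
  have hc1 : 720000 * Real.log (U + 1) ≤ m := by
    have h1 : 746250 * (x * lam) * y ≤ m * y := by
      have h2 : 746250 * z * x ≤ s * x := mul_le_mul_of_nonneg_right hsz (by linarith)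
      have h3 : 746250 * (x * lam) * y = 746250 * z * x := by rw [hz]; ring
      linarith
    have h2 : 746250 * (x * lam) ≤ m := le_of_mul_le_mul_right h1 hy0
    linarith
  have hmpos : (0 : ℝ) < m := by linarith
  -- second condition
  have hc2' : Real.log (U + 1) ^ 2 * Real.log (V - 1) ≤ 35.5 * m := by
    have h1 : Real.log (U + 1) ^ 2 ≤ (1.01 * (x * lam)) ^ 2 :=
      pow_le_pow_left₀ (by linarith) hlU2 2
    have hlV0 : 0 ≤ Real.log (V - 1) := Real.log_nonneg (by linarith)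
    have h2 : Real.log (U + 1) ^ 2 * Real.log (V - 1) ≤ (1.01 * (x * lam)) ^ 2 * z :=
      mul_le_mul h1 hlV1' hlV0 (by positivity)
    refine h2.trans ?_
    have h3 : ((1.01 * (x * lam)) ^ 2 * z) * y ≤ (35.5 * m) * y := by
      have h4 : ((1.01 * (x * lam)) ^ 2 * z) * y = 1.0201 * (x * ((x * lam) * z * z)) := by
        rw [hz]; ring
      have h5 : (x * lam) * z * z ≤ z ^ 3 := by
        have h6 : x * lam ≤ z := by
          rw [hz]; exact mul_le_mul_of_nonneg_right (by linarith) (by linarith)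
        calc (x * lam) * z * z = (x * lam) * (z * z) := by ring
          _ ≤ z * (z * z) := mul_le_mul_of_nonneg_right h6 (by positivity)
          _ = z ^ 3 := by ring
      have h7 : x * ((x * lam) * z * z) ≤ x * z ^ 3 := mul_le_mul_of_nonneg_left h5 (by linarith)
      have h8 : x * (1.05 * z ^ 3) ≤ x * (35 * s) := mul_le_mul_of_nonneg_left hsz3 (by linarith)
      rw [h4]
      have h9 : 0 ≤ x * z ^ 3 := by positivity
      have h10 : x * (1.05 * z ^ 3) = 1.05 * (x * z ^ 3) := by ring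
      have h11 : x * (35 * (s : ℝ)) = 35 * (s * x) := by ring
      have h12 : 35.5 * (m : ℝ) * y = 35.5 * (m * y) := by ring
      rw [h12]
      rw [h10, h11] at h8
      have h13 : 0 ≤ (s : ℝ) * x := by positivity
      linarith
    exact le_of_mul_le_mul_right h3 hy0
  have he1 : (1600 : ℝ) ≤ m / (450 * Real.log (U + 1)) := by
    rw [le_div_iff₀ (by positivity)]
    linarith
  have he2 : (1600 : ℝ) ^ 2 * (m / (450 * Real.log (U + 1))) ≤ (m / (450 * Real.log (U + 1))) ^ 3 := by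
    have : (1600 : ℝ) ^ 2 ≤ (m / (450 * Real.log (U + 1))) ^ 2 := pow_le_pow_left₀ (by norm_num) he1 2
    calc (1600 : ℝ) ^ 2 * (m / (450 * Real.log (U + 1))) ≤
          (m / (450 * Real.log (U + 1))) ^ 2 * (m / (450 * Real.log (U + 1))) :=
          mul_le_mul_of_nonneg_right this (by positivity)
      _ = (m / (450 * Real.log (U + 1))) ^ 3 := by ring
  apply pillai_two (a := d ^ x + 1) (b := d ^ y - 1) (u := s) (v := m) (by omega) (by omega)
    (by omega) (by omega) heq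
  · rw [ha]; exact hc1
  · rw [ha, hb]
    refine le_trans ?_ he2
    rw [← mul_div_assoc, le_div_iff₀ (by positivity)]
    have e4 : 160 * (Real.log (U + 1) * Real.log (V - 1)) * (450 * Real.log (U + 1)) =
        72000 * (Real.log (U + 1) ^ 2 * Real.log (V - 1)) := by ring
    rw [e4]
    linarith

end E3Data

/-- (E3) has no solutions. -/
theorem E3_no_solution {d x y s m : ℕ} (hd : 2 ≤ d) (hx : 2 ≤ x) (hy : 2 ≤ y) (hs : 2 ≤ s)
    (hm : 2 ≤ m) (hxy : x ≠ y) (h : (d ^ x + 1) ^ s = (d ^ y - 1) ^ m + 2) : False := by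
  -- d even
  have hde : 2 ∣ d := by
    by_contra hne
    have hdo : Odd d := by rw [Nat.odd_iff]; omega
    have h1 : 4 ∣ (d ^ x + 1) ^ s := by
      have h3 : 2 ∣ d ^ x + 1 := (hdo.pow.add_one).two_dvd
      have h5 : 2 ^ 2 ∣ (d ^ x + 1) ^ 2 := pow_dvd_pow_of_dvd h3 2
      exact (by simpa using h5 : 4 ∣ (d ^ x + 1) ^ 2).trans (pow_dvd_pow _ hs)
    have h2 : 4 ∣ (d ^ y - 1) ^ m := by
      have h3 : 2 ∣ d ^ y - 1 := (Nat.Odd.sub_odd hdo.pow (by decide)).two_dvd
      have h5 : 2 ^ 2 ∣ (d ^ y - 1) ^ 2 := pow_dvd_pow_of_dvd h3 2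
      exact (by simpa using h5 : 4 ∣ (d ^ y - 1) ^ 2).trans (pow_dvd_pow _ hm)
    omega
  have h4 : ∀ k, 2 ≤ k → 4 ∣ d ^ k := by
    intro k hk
    have h2 : 2 ^ 2 ∣ d ^ 2 := pow_dvd_pow_of_dvd hde 2
    exact (by simpa using h2 : 4 ∣ d ^ 2).trans (pow_dvd_pow d hk)
  have hVpos : 4 ≤ d ^ y := Nat.le_of_dvd (by positivity) (h4 y hy)
  have hUpos : 4 ≤ d ^ x := Nat.le_of_dvd (by positivity) (h4 x hx)
  -- m odd
  have hmo : Odd m := by
    by_contra hne
    rw [Nat.not_odd_iff_even] at hne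
    have h1 : ((d ^ x + 1) ^ s) % 4 = 1 := by
      have h2 : (d ^ x + 1) % 4 = 1 := by
        have := h4 x hx
        omega
      rw [Nat.pow_mod, h2, one_pow]
      norm_num
    have h3 : ((d ^ y - 1) ^ m) % 4 = 1 := by
      have h2 : (d ^ y - 1) % 4 = 3 := by
        have := h4 y hy
        omega
      obtain ⟨w, hw⟩ := hne
      rw [Nat.pow_mod, h2, hw, ← two_mul, pow_mul, Nat.pow_mod]
      norm_num
    omega
  have hm3 : 3 ≤ m := by
    rcases hmo with ⟨k, hk⟩
    omega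
  -- y > x
  have hlt : x < y := by
    by_contra hcon
    have hyx : y < x := by omega
    have h1 : (2 * d ^ y) ∣ d ^ x := by
      calc 2 * d ^ y ∣ d * d ^ y := mul_dvd_mul_right hde _
        _ = d ^ (y + 1) := by ring
        _ ∣ d ^ x := pow_dvd_pow _ hyx
    have h2 : d ^ x ∣ (d ^ x + 1) ^ s - 1 := by
      have := Nat.sub_dvd_pow_sub_pow (d ^ x + 1) 1 s
      rwa [one_pow, Nat.add_sub_cancel] at this
    have h3 : (2 * d ^ y) ∣ (d ^ y - 1) ^ m + 1 := by
      have h5 := h1.trans h2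
      rw [h] at h5
      exact h5
    obtain ⟨k, hk⟩ := one_add_pow_mod_sq (-((d : ℤ) ^ y)) m
    have h5 : (2 * (d : ℤ) ^ y) ∣ ((d : ℤ) ^ y - 1) ^ m + 1 := by
      have h6 : ((2 * d ^ y : ℕ) : ℤ) ∣ (((d ^ y - 1) ^ m + 1 : ℕ) : ℤ) := by exact_mod_cast h3
      push_cast at h6
      rw [Nat.cast_sub (by omega)] at h6
      push_cast at h6
      exact h6
    have h6 : ((d : ℤ) ^ y - 1) ^ m = -(1 + -((d : ℤ) ^ y)) ^ m := by
      rw [← hmo.neg_pow]
      congr 1
      ring
    rw [h6, hk] at h5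
    obtain ⟨c, hc⟩ : (2 : ℤ) ∣ (d : ℤ) ^ y := by
      have : 2 ∣ d ^ y := dvd_pow hde (by omega)
      exact_mod_cast this
    have hd0 : (d : ℤ) ^ y ≠ 0 := by positivity
    have h7 : 2 * (d : ℤ) ^ y ∣ m * (d : ℤ) ^ y := by
      have h8 : (m : ℤ) * (d : ℤ) ^ y = (-(1 + m * (-((d : ℤ) ^ y)) + k * (-((d : ℤ) ^ y)) ^ 2) + 1) +
          k * ((d : ℤ) ^ y) ^ 2 := by ring
      rw [h8]
      refine dvd_add h5 ?_
      refine ⟨k * c, ?_⟩
      rw [sq]
      nth_rewrite 2 [hc]
      ring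
    have h9 : (2 : ℤ) ∣ m := (mul_dvd_mul_iff_right hd0).1 h7
    have h10 : 2 ∣ m := by exact_mod_cast h9
    exact (Nat.not_even_iff_odd.2 hmo) (even_iff_two_dvd.2 h10)
  have hdata : E3Data d x y s m := ⟨hd, hde, hx, hlt, hs, hm3, hmo, h⟩
  rcases Nat.even_or_odd x with hxe | hxo
  · exact hdata.large_false (Or.inr ⟨hdata.d_ge_of_even hxe, hx⟩)
  · rcases Nat.lt_or_ge d 200 with hlt2 | hge
    · exact hdata.small_false hxo hlt2
    · refine hdata.large_false (Or.inl ⟨hge, ?_⟩)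
      rcases hxo with ⟨k, hk⟩
      omega

end Pool.Agent.Lib.MP_545343_nt
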